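import Mathlib

/-! Sparse linear combinations over F_3 and a verified straightening algorithm for the
relations of the Brown algebra br(2) in characteristic 3.
Letters: 0..3 = e1..e4, 4,5 = h1,h2, 6..9 = f1..f4. -/

namespace Pool.Agent.Lib.MP_b2f0a7_al

set_option maxHeartbeats 400000

section sparse
variable {ι : Type} {M : Type*} [AddCommGroup M]

def evL (z : ι → M) (l : List (ℕ × ι)) : M := (l.map fun t => t.1 • z t.2).sum

@[simp] theorem evL_nil (z : ι → M) : evL z [] = 0 := rfl
@[simp] theorem evL_cons (z : ι → M) (t : ℕ × ι) (l : List (ℕ × ι)) :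
    evL z (t :: l) = t.1 • z t.2 + evL z l := by simp [evL]
@[simp] theorem evL_append (z : ι → M) (l m : List (ℕ × ι)) :
    evL z (l ++ m) = evL z l + evL z m := by simp [evL]

def sc (c : ℕ) (l : List (ℕ × ι)) : List (ℕ × ι) := l.map fun t => (c * t.1, t.2)

theorem evL_sc (z : ι → M) (c : ℕ) (l : List (ℕ × ι)) : evL z (sc c l) = c • evL z l := by
  induction l with
  | nil => simp [sc]
  | cons t l ih =>
    have : sc c (t :: l) = (c * t.1, t.2) :: sc c l := rfl
    rw [this, evL_cons, evL_cons, ih, smul_add, mul_smul]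

def bind {κ : Type} (l : List (ℕ × κ)) (f : κ → List (ℕ × ι)) : List (ℕ × ι) :=
  l.flatMap fun t => sc t.1 (f t.2)

theorem evL_bind {κ : Type} (z : ι → M) (l : List (ℕ × κ)) (f : κ → List (ℕ × ι)) :
    evL z (bind l f) = evL (fun a => evL z (f a)) l := by
  induction l with
  | nil => simp [bind]
  | cons t l ih =>
    have : bind (t :: l) f = sc t.1 (f t.2) ++ bind l f := by simp [bind]
    rw [this, evL_append, evL_cons, ih, evL_sc]

theorem map_evL {N F : Type*} [AddCommGroup N] [FunLike F M N] [AddMonoidHomClass F M N] (φ : F)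
    (z : ι → M) (l : List (ℕ × ι)) : φ (evL z l) = evL (fun a => φ (z a)) l := by
  induction l with
  | nil => simp
  | cons t l ih => simp [ih]

theorem evL_mem {S : Type*} [SetLike S M] [AddSubgroupClass S M] (U : S) (z : ι → M)
    (h : ∀ a, z a ∈ U) (l : List (ℕ × ι)) : evL z l ∈ U := by
  induction l with
  | nil => simp
  | cons t l ih => rw [evL_cons]; exact add_mem (nsmul_mem (h _) _) ih

theorem mod3 (h3 : ∀ a : M, 3 • a = 0) (c : ℕ) (a : M) : (c % 3) • a = c • a := by
  conv_rhs => rw [← Nat.div_add_mod c 3, add_smul, mul_smul, h3, zero_add]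

variable [DecidableEq ι]

def ins (c : ℕ) (i : ι) : List (ℕ × ι) → List (ℕ × ι)
  | [] => if c % 3 = 0 then [] else [(c % 3, i)]
  | t :: r => if i = t.2 then (if (c + t.1) % 3 = 0 then r else ((c + t.1) % 3, i) :: r)
      else t :: ins c i r

theorem evL_ins (h3 : ∀ a : M, 3 • a = 0) (z : ι → M) (c : ℕ) (i : ι) (l : List (ℕ × ι)) :
    evL z (ins c i l) = c • z i + evL z l := by
  induction l with
  | nil =>
    unfold ins
    split_ifs with h
    · rw [← mod3 h3 c, h]; simp
    · simp [mod3 h3]
  | cons t r ih =>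
    unfold ins
    split_ifs with h h'
    · rw [evL_cons, ← h, ← add_assoc, ← add_smul, ← mod3 h3 (c + t.1), h']; simp
    · rw [evL_cons, evL_cons, ← h, mod3 h3, add_smul, add_assoc]
    · rw [evL_cons, evL_cons, ih]; abel

def nrm : List (ℕ × ι) → List (ℕ × ι)
  | [] => []
  | t :: r => ins t.1 t.2 (nrm r)

theorem evL_nrm (h3 : ∀ a : M, 3 • a = 0) (z : ι → M) (l : List (ℕ × ι)) :
    evL z (nrm l) = evL z l := by
  induction l with
  | nil => rfl
  | cons t r ih => unfold nrm; rw [evL_ins h3, ih, evL_cons]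

def same (l m : List (ℕ × ι)) : Bool := (nrm (l ++ sc 2 m)).isEmpty

theorem evL_same (h3 : ∀ a : M, 3 • a = 0) (z : ι → M) {l m : List (ℕ × ι)}
    (h : same l m = true) : evL z l = evL z m := by
  have h1 := evL_nrm h3 z (l ++ sc 2 m)
  rw [List.isEmpty_iff.1 h, evL_append, evL_sc, evL_nil] at h1
  have h2 := h3 (evL z m)
  have : evL z l = evL z l + 2 • evL z m + evL z m - 3 • evL z m := by abel
  rw [this, ← h1, h2]; simp

end sparse

def brT : List (List (List (ℕ × ℕ))) :=
  [[[], [(1, 2)], [], [], [(1, 0)], [(2, 0)], [(1, 4)], [], [(1, 7)], []],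
   [[(2, 2)], [], [(2, 3)], [], [(1, 1)], [], [], [(1, 5)], [(1, 6)], [(2, 8)]],
   [[], [(1, 3)], [], [], [(2, 2)], [(2, 2)], [(2, 1)], [(2, 0)], [(1, 4), (2, 5)], [(2, 7)]],
   [[], [], [], [], [], [(2, 3)], [], [(1, 2)], [(1, 1)], [(2, 4), (2, 5)]],
   [[(2, 0)], [(2, 1)], [(1, 2)], [], [], [], [(1, 6)], [(1, 7)], [(2, 8)], []],
   [[(1, 0)], [], [(1, 2)], [(1, 3)], [], [], [(2, 6)], [], [(2, 8)], [(2, 9)]],
   [[(2, 4)], [], [(1, 1)], [], [(2, 6)], [(1, 6)], [], [(1, 8)], [], []],
   [[], [(2, 5)], [(1, 0)], [(2, 2)], [(2, 7)], [], [(2, 8)], [], [(2, 9)], []],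
   [[(2, 7)], [(2, 6)], [(2, 4), (1, 5)], [(2, 1)], [(1, 8)], [(1, 8)], [], [(1, 9)], [], []],
   [[], [(1, 8)], [(1, 7)], [(1, 4), (1, 5)], [], [(1, 9)], [], [], [], []]]

def br (i j : ℕ) : List (ℕ × ℕ) := if i < 10 ∧ j < 10 then (brT.getD i []).getD j [] else []

def cu (i : ℕ) : List (ℕ × ℕ) := if i = 4 ∨ i = 5 then [(1, i)] else []

/-- The defining relations of the restricted enveloping algebra of br(2). -/
structure Rel {A : Type*} [Ring A] (x : ℕ → A) : Prop where
  three : ∀ a : A, 3 • a = 0
  zero : ∀ i, 10 ≤ i → x i = 0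
  comm : ∀ i j, x i * x j = x j * x i + evL x (br i j)
  cube : ∀ i, x i * (x i * x i) = evL x (cu i)

theorem br_skew : ∀ i < 10, ∀ j < 10, same (br i j) (sc 2 (br j i)) = true := by decide +kernel

theorem Rel.of_lt {A : Type*} [Ring A] {x : ℕ → A} (three : ∀ a : A, 3 • a = 0)
    (zero : ∀ i, 10 ≤ i → x i = 0)
    (comm : ∀ j < 10, ∀ i < j, x i * x j = x j * x i + evL x (br i j))
    (cube : ∀ i < 10, x i * (x i * x i) = evL x (cu i)) : Rel x where
  three := three
  zero := zero
  comm i j := by
    by_cases hi : i < 10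
    · by_cases hj : j < 10
      · rcases lt_trichotomy i j with h | h | h
        · exact comm j hj i h
        · subst h
          have := evL_same three x (br_skew i hi i hi)
          rw [evL_sc] at this
          have h2 : evL x (br i i) = 0 := by
            have h : evL x (br i i) = 2 • evL x (br i i) - evL x (br i i) := by abel
            rw [h, ← this, sub_self]
          rw [h2, add_zero]
        · have := evL_same three x (br_skew i hi j hj)
          rw [evL_sc] at this
          rw [this, comm i hi j h]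
          have h3 := three (evL x (br j i))
          have : x i * x j + evL x (br j i) + 2 • evL x (br j i)
            = x i * x j + 3 • evL x (br j i) := by abel
          rw [this, h3, add_zero]
      · simp [zero j (not_lt.1 hj), br, hj]
    · simp [zero i (not_lt.1 hi), br, hi]
  cube i := by
    by_cases hi : i < 10
    · exact cube i hi
    · have : ¬ (i = 4 ∨ i = 5) := by omega
      simp [zero i (not_lt.1 hi), cu, this]

theorem Rel.map {A B F : Type*} [Ring A] [Ring B] [FunLike F A B] [RingHomClass F A B] (φ : F)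
    {x : ℕ → A} (h : Rel x) (three : ∀ a : B, 3 • a = 0) : Rel (fun i => φ (x i)) where
  three := three
  zero i hi := by rw [h.zero i hi, map_zero]
  comm i j := by rw [← map_mul, h.comm, map_add, map_mul, map_evL]
  cube i := by rw [← map_mul, ← map_mul, h.cube, map_evL]

section words
variable {A : Type*} [Ring A]

def evW (x : ℕ → A) (w : List ℕ) : A := (w.map x).prod

@[simp] theorem evW_nil (x : ℕ → A) : evW x [] = 1 := rfl
@[simp] theorem evW_cons (x : ℕ → A) (i : ℕ) (w : List ℕ) : evW x (i :: w) = x i * evW x w := by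
  simp [evW]

theorem map_evW {B F : Type*} [Ring B] [FunLike F A B] [RingHomClass F A B] (φ : F) (x : ℕ → A)
    (w : List ℕ) : φ (evW x w) = evW (fun i => φ (x i)) w := by
  induction w with
  | nil => simp
  | cons i w ih => simp [ih]

abbrev Pol := List (ℕ × List ℕ)

def evP (x : ℕ → A) (p : Pol) : A := evL (evW x) p

theorem map_evP {B F : Type*} [Ring B] [FunLike F A B] [RingHomClass F A B] (φ : F) (x : ℕ → A)
    (p : Pol) : φ (evP x p) = evP (fun i => φ (x i)) p := by
  unfold evP
  rw [map_evL]
  congr 1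
  funext w
  exact map_evW φ x w

theorem mul_evL {ι : Type} (a : A) (z : ι → A) (l : List (ℕ × ι)) :
    a * evL z l = evL (fun i => a * z i) l := map_evL (AddMonoidHom.mulLeft a) z l

theorem evL_mul {ι : Type} (a : A) (z : ι → A) (l : List (ℕ × ι)) :
    evL z l * a = evL (fun i => z i * a) l := map_evL (AddMonoidHom.mulRight a) z l

def mul1 : ℕ → ℕ → List ℕ → Pol
  | 0, i, w => [(1, i :: w)]
  | _ + 1, i, [] => [(1, [i])]
  | n + 1, i, j :: r =>
    if i < j then [(1, i :: j :: r)]
    else if i = j then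
      (if r.head? = some i then bind (cu i) (fun a => mul1 n a r.tail) else [(1, i :: j :: r)])
    else nrm (bind (mul1 n i r) (fun w => mul1 n j w) ++ bind (br i j) (fun a => mul1 n a r))

theorem evP_mul1 {x : ℕ → A} (h : Rel x) (n : ℕ) : ∀ (i : ℕ) (w : List ℕ),
    evP x (mul1 n i w) = x i * evW x w := by
  induction n with
  | zero => intro i w; simp [mul1, evP]
  | succ n ih =>
    intro i w
    unfold evP at ih ⊢
    cases w with
    | nil => simp [mul1]
    | cons j r =>
      unfold mul1
      split_ifs with h1 h2 h3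
      · simp
      · subst h2
        cases r with
        | nil => simp at h3
        | cons l r =>
          simp only [List.head?_cons, Option.some.injEq] at h3
          subst h3
          rw [evL_bind]
          simp only [ih, List.tail_cons, evW_cons]
          rw [← evL_mul, ← h.cube]; simp [mul_assoc]
      · simp
      · rw [evL_nrm h.three, evL_append, evL_bind, evL_bind]
        simp only [ih]
        rw [← mul_evL, ih, ← evL_mul, evW_cons, ← mul_assoc, ← mul_assoc, h.comm i j, add_mul]

def mulL (i : ℕ) (p : Pol) : Pol := nrm (bind p (mul1 40 i))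

theorem evP_mulL {x : ℕ → A} (h : Rel x) (i : ℕ) (p : Pol) :
    evP x (mulL i p) = x i * evP x p := by
  unfold mulL evP
  rw [evL_nrm h.three, evL_bind, mul_evL]
  congr 1
  funext w
  exact evP_mul1 h 40 i w

def mulW : List ℕ → Pol → Pol
  | [], p => p
  | i :: w, p => mulL i (mulW w p)

theorem evP_mulW {x : ℕ → A} (h : Rel x) (w : List ℕ) (p : Pol) :
    evP x (mulW w p) = evW x w * evP x p := by
  induction w with
  | nil => simp [mulW]
  | cons i w ih => unfold mulW; rw [evP_mulL h, ih, evW_cons, mul_assoc]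

def mulP (p q : Pol) : Pol := nrm (bind p (fun w => mulW w q))

theorem evP_mulP {x : ℕ → A} (h : Rel x) (p q : Pol) :
    evP x (mulP p q) = evP x p * evP x q := by
  unfold mulP
  conv_rhs => enter [1]; unfold evP
  rw [evL_mul]
  unfold evP
  rw [evL_nrm h.three, evL_bind]
  congr 1
  funext w
  exact evP_mulW h w q

def nf (p : Pol) : Pol := mulP p [(1, [])]

theorem evP_nf {x : ℕ → A} (h : Rel x) (p : Pol) : evP x (nf p) = evP x p := by
  unfold nf; rw [evP_mulP h]; simp [evP]

theorem evP_eq {x : ℕ → A} (h : Rel x) {p q : Pol} (hs : same (nf p) (nf q) = true) :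
    evP x p = evP x q := by
  rw [← evP_nf h p, ← evP_nf h q]; exact evL_same h.three _ hs

theorem mul_eq {x : ℕ → A} (h : Rel x) {p q r s : Pol}
    (hs : same (mulP p (nf q)) (mulP r (nf s)) = true) :
    evP x p * evP x q = evP x r * evP x s := by
  rw [← evP_nf h q, ← evP_nf h s, ← evP_mulP h, ← evP_mulP h]; exact evL_same h.three _ hs

/-- The Casimir element. -/
def omP : Pol :=
  [(2, [6, 0]), (1, [7, 1]), (2, [8, 2]), (1, [9, 3]), (2, [5]), (2, [4, 5]), (1, [5, 5])]

/-- The Steinberg idempotent of sl2 x sl2. -/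
def epsP : Pol :=
  [(1, [0, 0, 6, 6, 3, 3, 9, 9, 4, 4, 5, 5]), (2, [0, 0, 6, 6, 3, 3, 9, 9, 4, 4, 5]),
   (2, [0, 0, 6, 6, 3, 3, 9, 9, 4, 5, 5]), (1, [0, 0, 6, 6, 3, 3, 9, 9, 4, 5])]

theorem om_check : ∀ i < 10,
    same (mulP [(1, [i])] (nf omP)) (mulP omP (nf [(1, [i])])) = true := by decide +kernel

theorem om_comm {x : ℕ → A} (h : Rel x) (i : ℕ) : x i * evP x omP = evP x omP * x i := by
  by_cases hi : i < 10
  · simpa [evP] using mul_eq h (om_check i hi)
  · simp [h.zero i (not_lt.1 hi)]

theorem eps_sq {x : ℕ → A} (h : Rel x) : evP x epsP * evP x epsP = evP x epsP := by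
  have : same (mulP epsP (nf epsP)) (mulP [(1, [])] (nf epsP)) = true := by decide +kernel
  simpa [evP] using mul_eq h this

theorem eps_0 {x : ℕ → A} (h : Rel x) : x 0 * evP x epsP = 0 := by
  have : same (mulP [(1, [0])] (nf epsP)) (mulP [] (nf epsP)) = true := by decide +kernel
  simpa [evP] using mul_eq h this

theorem eps_3 {x : ℕ → A} (h : Rel x) : x 3 * evP x epsP = 0 := by
  have : same (mulP [(1, [3])] (nf epsP)) (mulP [] (nf epsP)) = true := by decide +kernel
  simpa [evP] using mul_eq h this

theorem eps_4 {x : ℕ → A} (h : Rel x) : x 4 * evP x epsP = 2 • evP x epsP := by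
  have : same (mulP [(1, [4])] (nf epsP)) (mulP [(2, [])] (nf epsP)) = true := by decide +kernel
  simpa [evP] using mul_eq h this

theorem eps_5 {x : ℕ → A} (h : Rel x) : x 5 * evP x epsP = 2 • evP x epsP := by
  have : same (mulP [(1, [5])] (nf epsP)) (mulP [(2, [])] (nf epsP)) = true := by decide +kernel
  simpa [evP] using mul_eq h this

/-- The Chevalley involution on letters. -/
def omg (i : ℕ) : Pol :=
  if i < 4 then [(1, [i + 6])] else if i < 6 then [(2, [i])] else if i < 10 then [(1, [i - 6])]
  else []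

def tw (x : ℕ → A) (i : ℕ) : A := evP x (omg i)

theorem tw_check1 : ∀ j < 10, ∀ i < j,
    same (mulP (omg i) (nf (omg j))) (mulP (omg j) (nf (omg i)) ++ nf (bind (br i j) omg)) = true := by
  decide +kernel

theorem tw_check2 : ∀ i < 10,
    same (mulP (omg i) (mulP (omg i) (nf (omg i)))) (nf (bind (cu i) omg)) = true := by
  decide +kernel

theorem Rel.tw {x : ℕ → A} (h : Rel x) : Rel (tw x) := by
  refine Rel.of_lt h.three ?_ ?_ ?_
  · intro i hi
    have h1 : ¬ i < 4 := by omega
    have h2 : ¬ i < 6 := by omega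
    have h3 : ¬ i < 10 := by omega
    simp [MP_b2f0a7_al.tw, omg, h1, h2, h3, evP]
  · intro j hj i hi
    have := evL_same h.three (evW x) (tw_check1 j hj i hi)
    rw [evL_append] at this
    change evP x _ = evP x _ + evP x _ at this
    rw [evP_mulP h, evP_mulP h, evP_nf h, evP_nf h, evP_nf h] at this
    unfold evP at this
    rw [evL_bind] at this
    exact this
  · intro i hi
    have := evL_same h.three (evW x) (tw_check2 i hi)
    change evP x _ = evP x _ at this
    rw [evP_mulP h, evP_mulP h, evP_nf h, evP_nf h] at this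
    unfold evP at this
    rw [evL_bind] at this
    exact this

theorem tw_tw {x : ℕ → A} (h : Rel x) (i : ℕ) : tw (tw x) i = x i := by
  by_cases hi : i < 10
  · have h4 : ∀ a : A, 2 • 2 • a = a := fun a => by
      rw [← mul_smul, ← mod3 h.three]; simp
    interval_cases i <;> simp [tw, omg, evP, -nsmul_eq_mul, h4]
  · have h1 : ¬ i < 4 := by omega
    have h2 : ¬ i < 6 := by omega
    simp [tw, omg, h1, h2, hi, evP, h.zero i (not_lt.1 hi)]

theorem map_tw {B F : Type*} [Ring B] [FunLike F A B] [RingHomClass F A B] (φ : F) (x : ℕ → A)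
    (i : ℕ) : φ (tw x i) = tw (fun i => φ (x i)) i := map_evP φ x _

end words

end Pool.Agent.Lib.MP_b2f0a7_al
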