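import Pool.Agent.Lib.MP_b2f0a7_al.Main

/-! The Brown algebra br(2) as a restricted Lie algebra of operators. -/

namespace Pool.Agent.Lib.MP_b2f0a7_al

set_option maxHeartbeats 400000

open Module

attribute [local instance 100] LieRing.ofAssociativeRing

universe u

variable {k : Type u} [Field k] [CharP k 3]

theorem cube_add {B : Type*} [Ring B] (h3 : ∀ a : B, 3 • a = 0) (a b : B) :
    (a + b) ^ 3 = a ^ 3 + b ^ 3 + (⁅a, ⁅a, b⁆⁆ + ⁅b, ⁅b, a⁆⁆) := by
  have : (a + b) ^ 3 = a ^ 3 + b ^ 3 + (⁅a, ⁅a, b⁆⁆ + ⁅b, ⁅b, a⁆⁆)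
      + 3 • (a * b * a + b * a * b) := by
    simp only [LieRing.of_associative_ring_bracket]; noncomm_ring
  rw [this, h3, add_zero]

theorem cube_lie {B : Type*} [Ring B] (h3 : ∀ a : B, 3 • a = 0) (a c : B) :
    ⁅a ^ 3, c⁆ = ⁅a, ⁅a, ⁅a, c⁆⁆⁆ := by
  have : ⁅a ^ 3, c⁆ = ⁅a, ⁅a, ⁅a, c⁆⁆⁆ + 3 • (a * a * c * a - a * c * a * a) := by
    simp only [LieRing.of_associative_ring_bracket]; noncomm_ring
  rw [this, h3, add_zero]

theorem jacSum_three {L : Type u} [LieRing L] [LieAlgebra k L] (x y : L) :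
    jacSum k 3 x y = ⁅x, ⁅x, y⁆⁆ + ⁅y, ⁅y, x⁆⁆ := by
  have h2 : (2 : k)⁻¹ = -1 := by
    have h3 : ((3 : ℕ) : k) = 0 := CharP.cast_eq_zero k 3
    refine inv_eq_of_mul_eq_one_right ?_
    have : (2 : k) * -1 = 1 - ((3 : ℕ) : k) := by norm_num
    rw [this, h3, sub_zero]
  unfold jacSum
  change ∑ s : Fin 2 → Bool, _ = _
  rw [← (piFinTwoEquiv fun _ => Bool).symm.sum_comp, Fintype.sum_prod_type]
  simp only [Fintype.sum_bool, piFinTwoEquiv_symm_apply, List.ofFn_succ, List.ofFn_zero,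
    Finset.card_filter]
  simp
  have h1 : (Finset.univ.filter fun x => ![true, false] x = true).card = 1 := by decide
  rw [h1, Nat.cast_one, one_add_one_eq_two, h2, ← lie_skew y x, lie_neg, neg_one_smul, neg_neg]

theorem Rel.lie {B : Type*} [Ring B] {z : ℕ → B} (h : Rel z) (i j : ℕ) :
    ⁅z i, z j⁆ = evL z (br i j) := by
  rw [LieRing.of_associative_ring_bracket, h.comm i j, add_sub_cancel_left]

theorem Rel.pow3 {B : Type*} [Ring B] {z : ℕ → B} (h : Rel z) (i : ℕ) :
    z i ^ 3 = evL z (cu i) := by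
  rw [← h.cube, pow_three]

variable (k)

theorem rel_y : Rel (yy k 0 0) := (good_yy k (by norm_num) (by norm_num)).rel

noncomputable def gS : LieSubalgebra k (End k (Fin 81 → k)) :=
  { Submodule.span k (Set.range (yy k 0 0)) with
    lie_mem' := by
      intro a b ha hb
      change ⁅a, b⁆ ∈ Submodule.span k (Set.range (yy k 0 0))
      induction ha, hb using Submodule.span_induction₂ with
      | mem_mem a b ha hb =>
        obtain ⟨i, rfl⟩ := ha
        obtain ⟨j, rfl⟩ := hb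
        rw [(rel_y k).lie]
        exact evL_mem _ _ (fun l => Submodule.subset_span (Set.mem_range_self l)) _
      | zero_left => simp
      | zero_right => simp
      | add_left _ _ _ _ _ _ h1 h2 => rw [add_lie]; exact add_mem h1 h2
      | add_right _ _ _ _ _ _ h1 h2 => rw [lie_add]; exact add_mem h1 h2
      | smul_left _ _ _ _ _ h => rw [smul_lie]; exact Submodule.smul_mem _ _ h
      | smul_right _ _ _ _ _ h => rw [lie_smul]; exact Submodule.smul_mem _ _ h }

theorem mem_gS (a : End k (Fin 81 → k)) :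
    a ∈ gS k ↔ a ∈ Submodule.span k (Set.range (yy k 0 0)) := Iff.rfl

theorem y_mem (i : ℕ) : yy k 0 0 i ∈ gS k := Submodule.subset_span (Set.mem_range_self i)

theorem cube_mem {a : End k (Fin 81 → k)} (ha : a ∈ gS k) : a ^ 3 ∈ gS k := by
  rw [mem_gS] at ha
  induction ha using Submodule.span_induction with
  | mem a ha =>
    obtain ⟨i, rfl⟩ := ha
    rw [(rel_y k).pow3]
    exact evL_mem _ _ (y_mem k) _
  | zero => simp
  | add a b ha hb h1 h2 =>
    rw [cube_add (three_smul k)]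
    exact add_mem (add_mem h1 h2) (add_mem ((gS k).lie_mem ha ((gS k).lie_mem ha hb))
      ((gS k).lie_mem hb ((gS k).lie_mem hb ha)))
  | smul c a ha h => rw [smul_pow]; exact (gS k).smul_mem _ h

noncomputable def pmS (a : gS k) : gS k := ⟨a.1 ^ 3, cube_mem k a.2⟩

theorem pmS_isPMap : IsPMap k 3 (pmS k) where
  ad_eq a := by
    ext c : 2
    simp only [LieAlgebra.ad_apply, pow_three, Module.End.mul_apply, LieSubalgebra.coe_bracket]
    exact cube_lie (three_smul k) a.1 c.1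
  smul c a := Subtype.ext (smul_pow c a.1 3)
  add a b := by
    rw [jacSum_three]
    exact Subtype.ext (cube_add (three_smul k) a.1 b.1)

section univ
variable {k} {B : Type*} [Ring B] [Algebra k B]

noncomputable def LL (z : ℕ → B) : End k (Fin 81 → k) →ₗ[k] B :=
  ∑ i ∈ Finset.range 10,
    ((LinearMap.proj (coB i) : (Fin 81 → k) →ₗ[k] k) ∘ₗ
      (LinearMap.applyₗ (bv k (coA i)))).smulRight (z i)

theorem LL_y {z : ℕ → B} (hz : Rel z) (j : ℕ) : LL z (yy k 0 0 j) = z j := by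
  have : LL z (yy k 0 0 j) = ∑ i ∈ Finset.range 10, (if i = j then (1 : k) else 0) • z i := by
    rw [LL, LinearMap.sum_apply]
    refine Finset.sum_congr rfl fun i hi => ?_
    rw [← co_yy k (Finset.mem_range.1 hi) j]; rfl
  rw [this]
  by_cases hj : j < 10
  · simp [hj]
  · simp [hj, hz.zero j (not_lt.1 hj)]

theorem LL_lie {z : ℕ → B} (hz : Rel z) {a b : End k (Fin 81 → k)} (ha : a ∈ gS k)
    (hb : b ∈ gS k) : LL z ⁅a, b⁆ = ⁅LL z a, LL z b⁆ := by
  rw [mem_gS] at ha hb
  induction ha, hb using Submodule.span_induction₂ with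
  | mem_mem a b ha hb =>
    obtain ⟨i, rfl⟩ := ha
    obtain ⟨j, rfl⟩ := hb
    rw [(rel_y k).lie, map_evL]
    simp only [LL_y hz, hz.lie]
  | zero_left => simp
  | zero_right => simp
  | add_left _ _ _ _ _ _ h1 h2 => simp only [add_lie, map_add, h1, h2]
  | add_right _ _ _ _ _ _ h1 h2 => simp only [lie_add, map_add, h1, h2]
  | smul_left _ _ _ _ _ h => simp only [smul_lie, map_smul, h]
  | smul_right _ _ _ _ _ h =>
    rw [lie_smul, map_smul, map_smul, h]
    simp only [LieRing.of_associative_ring_bracket, smul_sub, mul_smul_comm, smul_mul_assoc]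

theorem LL_cube {z : ℕ → B} (hz : Rel z) {a : End k (Fin 81 → k)} (ha : a ∈ gS k) :
    LL z (a ^ 3) = LL z a ^ 3 := by
  rw [mem_gS] at ha
  induction ha using Submodule.span_induction with
  | mem a ha =>
    obtain ⟨i, rfl⟩ := ha
    rw [(rel_y k).pow3, map_evL]
    simp only [LL_y hz, hz.pow3]
  | zero => simp
  | add a b ha hb h1 h2 =>
    rw [cube_add (three_smul k), map_add (LL z) a b, cube_add hz.three]
    simp only [map_add, h1, h2, LL_lie hz ha ((gS k).lie_mem ha hb),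
      LL_lie hz hb ((gS k).lie_mem hb ha), LL_lie hz ha hb, LL_lie hz hb ha]
  | smul c a ha h => rw [smul_pow, map_smul, map_smul, smul_pow, h]

noncomputable def LH {z : ℕ → B} (hz : Rel z) : gS k →ₗ⁅k⁆ B :=
  { (LL z).comp (gS k).toSubmodule.subtype with
    map_lie' := fun {a b} => LL_lie hz a.2 b.2 }

end univ

noncomputable def YY (i : ℕ) : gS k := ⟨yy k 0 0 i, y_mem k i⟩

noncomputable def qq : UniversalEnvelopingAlgebra k (gS k) →ₐ[k] RedEnv k 3 (pmS k) 0 :=
  RingQuot.mkAlgHom k _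

noncomputable def jj : gS k →ₗ⁅k⁆ RedEnv k 3 (pmS k) 0 :=
  (qq k : _ →ₗ⁅k⁆ _).comp (UniversalEnvelopingAlgebra.ι k)

theorem jj_apply (a : gS k) : jj k a = qq k (UniversalEnvelopingAlgebra.ι k a) := rfl

theorem jj_cube (a : gS k) : jj k a ^ 3 = jj k (pmS k a) := by
  have := RingQuot.mkAlgHom_rel k (s := fun a b : UniversalEnvelopingAlgebra k (gS k) =>
    ∃ x : gS k, a = UniversalEnvelopingAlgebra.ι k x ^ 3 ∧
    b = UniversalEnvelopingAlgebra.ι k (pmS k x) +
      algebraMap k _ ((0 : Module.Dual k (gS k)) x ^ 3)) ⟨a, rfl, rfl⟩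
  rw [map_pow, LinearMap.zero_apply, zero_pow (by norm_num), map_zero, add_zero] at this
  exact this

theorem evL_YY (l : List (ℕ × ℕ)) : ((evL (YY k) l : gS k) : End k (Fin 81 → k)) =
    evL (yy k 0 0) l := map_evL (gS k).toSubmodule.subtype (YY k) l

omit [CharP k 3] in
theorem rel_of_hom {L B : Type*} [LieRing L] [LieAlgebra k L] [Ring B] [Algebra k B]
    (j : L →ₗ⁅k⁆ B) (Y : ℕ → L) (pm : L → L) (h3 : ∀ a : B, 3 • a = 0)
    (h0 : ∀ i, 10 ≤ i → Y i = 0) (hb : ∀ i l, ⁅Y i, Y l⁆ = evL Y (br i l))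
    (hc : ∀ i, pm (Y i) = evL Y (cu i)) (hj : ∀ a, j a ^ 3 = j (pm a)) :
    Rel (fun i => j (Y i)) := by
  refine ⟨h3, fun i hi => ?_, fun i l => ?_, fun i => ?_⟩
  · rw [h0 i hi, map_zero]
  · rw [← map_evL j, ← hb, LieHom.map_lie, LieRing.of_associative_ring_bracket]
    abel
  · rw [← map_evL j, ← hc, ← hj, pow_three]

omit [CharP k 3] in
theorem gen_of_hom {L B : Type*} [LieRing L] [LieAlgebra k L] [Ring B] [Algebra k B]
    (q : UniversalEnvelopingAlgebra k L →ₐ[k] B) (hq : Function.Surjective q) (S : Subalgebra k B)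
    (h1 : ∀ a : L, q (UniversalEnvelopingAlgebra.ι k a) ∈ S) : S = ⊤ := by
  let j : L →ₗ⁅k⁆ B := (q : _ →ₗ⁅k⁆ _).comp (UniversalEnvelopingAlgebra.ι k)
  let f : L →ₗ⁅k⁆ S :=
    { toFun := fun a => ⟨j a, h1 a⟩
      map_add' := fun a b => Subtype.ext (map_add j a b)
      map_smul' := fun c a => Subtype.ext (map_smul j c a)
      map_lie' := fun {a b} => Subtype.ext (LieHom.map_lie j a b) }
  have h2 : S.val.comp (UniversalEnvelopingAlgebra.lift k f) = q := by
    refine UniversalEnvelopingAlgebra.hom_ext k ?_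
    ext a
    simp only [LieHom.coe_comp, Function.comp_apply, AlgHom.coe_toLieHom, AlgHom.comp_apply,
      UniversalEnvelopingAlgebra.lift_ι_apply]
    rfl
  rw [eq_top_iff]
  intro a _
  obtain ⟨b, rfl⟩ := hq a
  rw [← h2]
  exact Subtype.prop _

omit [CharP k 3] in
theorem univ_of_hom {L : Type u} {B : Type*} [LieRing L] [LieAlgebra k L] [Ring B] [Algebra k B]
    (pm : L → L) (f : L →ₗ⁅k⁆ B) (hf : ∀ a, f a ^ 3 = f (pm a)) :
    ∃ φ : RedEnv k 3 pm 0 →ₐ[k] B,
      ∀ a, φ (RingQuot.mkAlgHom k _ (UniversalEnvelopingAlgebra.ι k a)) = f a := by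
  refine ⟨RingQuot.liftAlgHom k ⟨UniversalEnvelopingAlgebra.lift k f, ?_⟩, fun a => ?_⟩
  · rintro _ _ ⟨a, rfl, rfl⟩
    rw [map_pow, LinearMap.zero_apply, zero_pow (by norm_num), map_zero, add_zero,
      UniversalEnvelopingAlgebra.lift_ι_apply, UniversalEnvelopingAlgebra.lift_ι_apply, hf]
  · rw [RingQuot.liftAlgHom_mkAlgHom_apply, UniversalEnvelopingAlgebra.lift_ι_apply]

theorem span_YY : Submodule.span k (Set.range (YY k)) = ⊤ := by
  rw [eq_top_iff]
  rintro ⟨a, ha⟩ -
  induction ha using Submodule.span_induction with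
  | mem a ha => obtain ⟨i, rfl⟩ := ha; exact Submodule.subset_span ⟨i, rfl⟩
  | zero => exact zero_mem _
  | add a b ha hb h1 h2 => exact add_mem h1 h2
  | smul c a ha h => exact Submodule.smul_mem _ c h

theorem pres : Pres k (fun i => jj k (YY k i)) where
  rel := rel_of_hom k (jj k) (YY k) (pmS k) (three_smul k)
    (fun i hi => Subtype.ext ((rel_y k).zero i hi))
    (fun i j => Subtype.ext (by rw [evL_YY]; exact (rel_y k).lie i j))
    (fun i => Subtype.ext (by rw [evL_YY]; exact (rel_y k).pow3 i)) (jj_cube k)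
  gen := by
    refine gen_of_hom k (qq k) (RingQuot.mkAlgHom_surjective k _) _ fun a => ?_
    rw [← jj_apply]
    have ha : a ∈ Submodule.span k (Set.range (YY k)) := span_YY k ▸ Submodule.mem_top
    induction ha using Submodule.span_induction with
    | mem a ha => obtain ⟨i, rfl⟩ := ha; exact Algebra.subset_adjoin ⟨i, rfl⟩
    | zero => rw [map_zero]; exact zero_mem _
    | add a b ha hb h1 h2 => rw [map_add]; exact add_mem h1 h2
    | smul c a ha h => rw [map_smul]; exact Subalgebra.smul_mem _ h c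
  univ z hz := by
    obtain ⟨φ, hφ⟩ := univ_of_hom k (pmS k) (LH hz) (fun a => (LL_cube hz a.2).symm)
    exact ⟨φ, fun i => (hφ _).trans (LL_y hz i)⟩

end Pool.Agent.Lib.MP_b2f0a7_al
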