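import Pool.Agent.Lib.MP_b2f0a7_al.Verma

namespace Pool.Agent.Lib.MP_b2f0a7_al

theorem chk000 : chkJ 0 0 0 = true := by decide +kernel
theorem chk001 : chkJ 0 0 1 = true := by decide +kernel
theorem chk002 : chkJ 0 0 2 = true := by decide +kernel
theorem chk003 : chkJ 0 0 3 = true := by decide +kernel
theorem chk004 : chkJ 0 0 4 = true := by decide +kernel
theorem chk005 : chkJ 0 0 5 = true := by decide +kernel
theorem chk006 : chkJ 0 0 6 = true := by decide +kernel
theorem chk007 : chkJ 0 0 7 = true := by decide +kernel
theorem chk008 : chkJ 0 0 8 = true := by decide +kernel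
theorem chk009 : chkJ 0 0 9 = true := by decide +kernel
theorem chkR00 : chkR 0 0 = true := by decide +kernel
theorem chk00 : (∀ j < 10, chkJ 0 0 j = true) ∧ chkR 0 0 = true := by
  refine ⟨fun j hj => ?_, chkR00⟩
  interval_cases j
  exacts [chk000, chk001, chk002, chk003, chk004, chk005, chk006, chk007, chk008, chk009]

theorem chk010 : chkJ 0 1 0 = true := by decide +kernel
theorem chk011 : chkJ 0 1 1 = true := by decide +kernel
theorem chk012 : chkJ 0 1 2 = true := by decide +kernel
theorem chk013 : chkJ 0 1 3 = true := by decide +kernel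
theorem chk014 : chkJ 0 1 4 = true := by decide +kernel
theorem chk015 : chkJ 0 1 5 = true := by decide +kernel
theorem chk016 : chkJ 0 1 6 = true := by decide +kernel
theorem chk017 : chkJ 0 1 7 = true := by decide +kernel
theorem chk018 : chkJ 0 1 8 = true := by decide +kernel
theorem chk019 : chkJ 0 1 9 = true := by decide +kernel
theorem chkR01 : chkR 0 1 = true := by decide +kernel
theorem chk01 : (∀ j < 10, chkJ 0 1 j = true) ∧ chkR 0 1 = true := by
  refine ⟨fun j hj => ?_, chkR01⟩
  interval_cases j
  exacts [chk010, chk011, chk012, chk013, chk014, chk015, chk016, chk017, chk018, chk019]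

theorem chk020 : chkJ 0 2 0 = true := by decide +kernel
theorem chk021 : chkJ 0 2 1 = true := by decide +kernel
theorem chk022 : chkJ 0 2 2 = true := by decide +kernel
theorem chk023 : chkJ 0 2 3 = true := by decide +kernel
theorem chk024 : chkJ 0 2 4 = true := by decide +kernel
theorem chk025 : chkJ 0 2 5 = true := by decide +kernel
theorem chk026 : chkJ 0 2 6 = true := by decide +kernel
theorem chk027 : chkJ 0 2 7 = true := by decide +kernel
theorem chk028 : chkJ 0 2 8 = true := by decide +kernel
theorem chk029 : chkJ 0 2 9 = true := by decide +kernel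
theorem chkR02 : chkR 0 2 = true := by decide +kernel
theorem chk02 : (∀ j < 10, chkJ 0 2 j = true) ∧ chkR 0 2 = true := by
  refine ⟨fun j hj => ?_, chkR02⟩
  interval_cases j
  exacts [chk020, chk021, chk022, chk023, chk024, chk025, chk026, chk027, chk028, chk029]

end Pool.Agent.Lib.MP_b2f0a7_al
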