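import Pool.Agent.Lib.MP_b2f0a7_al.Verma

namespace Pool.Agent.Lib.MP_b2f0a7_al

theorem chk100 : chkJ 1 0 0 = true := by decide +kernel
theorem chk101 : chkJ 1 0 1 = true := by decide +kernel
theorem chk102 : chkJ 1 0 2 = true := by decide +kernel
theorem chk103 : chkJ 1 0 3 = true := by decide +kernel
theorem chk104 : chkJ 1 0 4 = true := by decide +kernel
theorem chk105 : chkJ 1 0 5 = true := by decide +kernel
theorem chk106 : chkJ 1 0 6 = true := by decide +kernel
theorem chk107 : chkJ 1 0 7 = true := by decide +kernel
theorem chk108 : chkJ 1 0 8 = true := by decide +kernel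
theorem chk109 : chkJ 1 0 9 = true := by decide +kernel
theorem chkR10 : chkR 1 0 = true := by decide +kernel
theorem chk10 : (∀ j < 10, chkJ 1 0 j = true) ∧ chkR 1 0 = true := by
  refine ⟨fun j hj => ?_, chkR10⟩
  interval_cases j
  exacts [chk100, chk101, chk102, chk103, chk104, chk105, chk106, chk107, chk108, chk109]

theorem chk110 : chkJ 1 1 0 = true := by decide +kernel
theorem chk111 : chkJ 1 1 1 = true := by decide +kernel
theorem chk112 : chkJ 1 1 2 = true := by decide +kernel
theorem chk113 : chkJ 1 1 3 = true := by decide +kernel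
theorem chk114 : chkJ 1 1 4 = true := by decide +kernel
theorem chk115 : chkJ 1 1 5 = true := by decide +kernel
theorem chk116 : chkJ 1 1 6 = true := by decide +kernel
theorem chk117 : chkJ 1 1 7 = true := by decide +kernel
theorem chk118 : chkJ 1 1 8 = true := by decide +kernel
theorem chk119 : chkJ 1 1 9 = true := by decide +kernel
theorem chkR11 : chkR 1 1 = true := by decide +kernel
theorem chk11 : (∀ j < 10, chkJ 1 1 j = true) ∧ chkR 1 1 = true := by
  refine ⟨fun j hj => ?_, chkR11⟩
  interval_cases j
  exacts [chk110, chk111, chk112, chk113, chk114, chk115, chk116, chk117, chk118, chk119]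

theorem chk120 : chkJ 1 2 0 = true := by decide +kernel
theorem chk121 : chkJ 1 2 1 = true := by decide +kernel
theorem chk122 : chkJ 1 2 2 = true := by decide +kernel
theorem chk123 : chkJ 1 2 3 = true := by decide +kernel
theorem chk124 : chkJ 1 2 4 = true := by decide +kernel
theorem chk125 : chkJ 1 2 5 = true := by decide +kernel
theorem chk126 : chkJ 1 2 6 = true := by decide +kernel
theorem chk127 : chkJ 1 2 7 = true := by decide +kernel
theorem chk128 : chkJ 1 2 8 = true := by decide +kernel
theorem chk129 : chkJ 1 2 9 = true := by decide +kernel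
theorem chkR12 : chkR 1 2 = true := by decide +kernel
theorem chk12 : (∀ j < 10, chkJ 1 2 j = true) ∧ chkR 1 2 = true := by
  refine ⟨fun j hj => ?_, chkR12⟩
  interval_cases j
  exacts [chk120, chk121, chk122, chk123, chk124, chk125, chk126, chk127, chk128, chk129]

end Pool.Agent.Lib.MP_b2f0a7_al
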