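import Pool.Agent.Lib.MP_b2f0a7_al.Verma

namespace Pool.Agent.Lib.MP_b2f0a7_al

theorem chk200 : chkJ 2 0 0 = true := by decide +kernel
theorem chk201 : chkJ 2 0 1 = true := by decide +kernel
theorem chk202 : chkJ 2 0 2 = true := by decide +kernel
theorem chk203 : chkJ 2 0 3 = true := by decide +kernel
theorem chk204 : chkJ 2 0 4 = true := by decide +kernel
theorem chk205 : chkJ 2 0 5 = true := by decide +kernel
theorem chk206 : chkJ 2 0 6 = true := by decide +kernel
theorem chk207 : chkJ 2 0 7 = true := by decide +kernel
theorem chk208 : chkJ 2 0 8 = true := by decide +kernel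
theorem chk209 : chkJ 2 0 9 = true := by decide +kernel
theorem chkR20 : chkR 2 0 = true := by decide +kernel
theorem chk20 : (∀ j < 10, chkJ 2 0 j = true) ∧ chkR 2 0 = true := by
  refine ⟨fun j hj => ?_, chkR20⟩
  interval_cases j
  exacts [chk200, chk201, chk202, chk203, chk204, chk205, chk206, chk207, chk208, chk209]

theorem chk210 : chkJ 2 1 0 = true := by decide +kernel
theorem chk211 : chkJ 2 1 1 = true := by decide +kernel
theorem chk212 : chkJ 2 1 2 = true := by decide +kernel
theorem chk213 : chkJ 2 1 3 = true := by decide +kernel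
theorem chk214 : chkJ 2 1 4 = true := by decide +kernel
theorem chk215 : chkJ 2 1 5 = true := by decide +kernel
theorem chk216 : chkJ 2 1 6 = true := by decide +kernel
theorem chk217 : chkJ 2 1 7 = true := by decide +kernel
theorem chk218 : chkJ 2 1 8 = true := by decide +kernel
theorem chk219 : chkJ 2 1 9 = true := by decide +kernel
theorem chkR21 : chkR 2 1 = true := by decide +kernel
theorem chk21 : (∀ j < 10, chkJ 2 1 j = true) ∧ chkR 2 1 = true := by
  refine ⟨fun j hj => ?_, chkR21⟩
  interval_cases j
  exacts [chk210, chk211, chk212, chk213, chk214, chk215, chk216, chk217, chk218, chk219]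

theorem chk220 : chkJ 2 2 0 = true := by decide +kernel
theorem chk221 : chkJ 2 2 1 = true := by decide +kernel
theorem chk222 : chkJ 2 2 2 = true := by decide +kernel
theorem chk223 : chkJ 2 2 3 = true := by decide +kernel
theorem chk224 : chkJ 2 2 4 = true := by decide +kernel
theorem chk225 : chkJ 2 2 5 = true := by decide +kernel
theorem chk226 : chkJ 2 2 6 = true := by decide +kernel
theorem chk227 : chkJ 2 2 7 = true := by decide +kernel
theorem chk228 : chkJ 2 2 8 = true := by decide +kernel
theorem chk229 : chkJ 2 2 9 = true := by decide +kernel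
theorem chkR22 : chkR 2 2 = true := by decide +kernel
theorem chk22 : (∀ j < 10, chkJ 2 2 j = true) ∧ chkR 2 2 = true := by
  refine ⟨fun j hj => ?_, chkR22⟩
  interval_cases j
  exacts [chk220, chk221, chk222, chk223, chk224, chk225, chk226, chk227, chk228, chk229]

end Pool.Agent.Lib.MP_b2f0a7_al
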