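import Mathlib

/-! Restricted Lie algebras, reduced enveloping algebras and dimensions of projective
indecomposable modules. -/

namespace Pool.Agent.Lib.MP_b2f0a7_al

universe u

/-- Jacobson's sum `s_1(x,y) + ... + s_{p-1}(x,y)`, where `i s_i(x,y)` is the coefficient of
`t^(i-1)` in `ad(t x + y)^(p-1)(x)`: the words with `i - 1` letters `x` get the factor `1/i`. -/
noncomputable def jacSum (k : Type u) [Field k] (p : ℕ) {L : Type u} [LieRing L] [LieAlgebra k L]
    (x y : L) : L :=
  ∑ s : Fin (p - 1) → Bool,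
    (((Finset.univ.filter fun j => s j = true).card + 1 : ℕ) : k)⁻¹ •
      (List.ofFn fun j => LieAlgebra.ad k L (if s j = true then x else y)).prod x

/-- `pm` is a `p`-map on `L` (Jacobson's axioms). -/
structure IsPMap (k : Type u) [Field k] (p : ℕ) {L : Type u} [LieRing L] [LieAlgebra k L]
    (pm : L → L) : Prop where
  ad_eq : ∀ x, LieAlgebra.ad k L (pm x) = LieAlgebra.ad k L x ^ p
  smul : ∀ (c : k) (x : L), pm (c • x) = c ^ p • pm x
  add : ∀ x y, pm (x + y) = pm x + pm y + jacSum k p x y

/-- The reduced enveloping algebra `U(L) / (x^p - x^[p] - χ(x)^p)`. -/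
abbrev RedEnv (k : Type u) [Field k] (p : ℕ) {L : Type u} [LieRing L] [LieAlgebra k L]
    (pm : L → L) (χ : Module.Dual k L) : Type u :=
  RingQuot fun a b : UniversalEnvelopingAlgebra k L => ∃ x : L,
    a = UniversalEnvelopingAlgebra.ι k x ^ p ∧
    b = UniversalEnvelopingAlgebra.ι k (pm x) + algebraMap k _ (χ x ^ p)

/-- The set of dimensions of the finite-dimensional projective indecomposable `A`-modules. -/
def pimDims (k : Type u) [Field k] (A : Type u) [Ring A] [Algebra k A] : Set ℕ :=
  {d | ∃ (P : Type u) (_ : AddCommGroup P) (_ : Module k P) (_ : Module A P)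
    (_ : IsScalarTower k A P), FiniteDimensional k P ∧ Module.Projective A P ∧ Nontrivial P ∧
      (∀ N N' : Submodule A P, IsCompl N N' → N = ⊥ ∨ N' = ⊥) ∧ Module.finrank k P = d}

end Pool.Agent.Lib.MP_b2f0a7_al
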