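import Pool.Agent.Lib.MP_b2f0a7_al.Mod
import Pool.Agent.Lib.MP_b2f0a7_al.Defs

namespace Pool.Agent.Lib.MP_b2f0a7_al

set_option maxHeartbeats 400000

open Module

universe u

variable {k : Type u} [Field k] {A : Type u} [Ring A] [Algebra k A]

theorem stab_all {M : Type*} [AddCommGroup M] [Module k M] {x : ℕ → A}
    (gen : Algebra.adjoin k (Set.range x) = ⊤) (ρ : A →ₐ[k] End k M) {U : Submodule k M}
    (hU : Stab (fun i => ρ (x i)) U) (a : A) : St (ρ a) U := by
  have ha : a ∈ Algebra.adjoin k (Set.range x) := gen ▸ Algebra.mem_top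
  induction ha using Algebra.adjoin_induction with
  | mem _ h => obtain ⟨i, rfl⟩ := h; exact hU i
  | algebraMap r => intro u hu; rw [AlgHom.commutes]; exact U.smul_mem r hu
  | add a b _ _ ha hb => intro u hu; rw [map_add]; exact add_mem (ha u hu) (hb u hu)
  | mul a b _ _ ha hb => intro u hu; rw [map_mul]; exact ha _ (hb u hu)

/-- `A` is presented by the generators `x i` and the relations of br(2), in the weak form needed. -/
structure Pres (k : Type u) [Field k] {A : Type u} [Ring A] [Algebra k A] (x : ℕ → A) : Prop where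
  rel : Rel x
  gen : Algebra.adjoin k (Set.range x) = ⊤
  univ : ∀ z : ℕ → End k (Fin 81 → k), Rel z →
    ∃ φ : A →ₐ[k] End k (Fin 81 → k), ∀ i, φ (x i) = z i

theorem evP_mem (S : Subalgebra k A) {x : ℕ → A} (h : ∀ i, x i ∈ S) (p : Pol) : evP x p ∈ S := by
  refine evL_mem S _ (fun w => ?_) p
  induction w with
  | nil => exact one_mem S
  | cons i w ih => rw [evW_cons]; exact mul_mem (h i) ih

theorem Pres.tw {x : ℕ → A} (h : Pres k x) : Pres k (tw x) where
  rel := h.rel.tw
  gen := by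
    rw [eq_top_iff, ← h.gen, Algebra.adjoin_le_iff]
    rintro _ ⟨i, rfl⟩
    rw [← tw_tw h.rel i]
    exact evP_mem _ (fun j => Algebra.subset_adjoin (Set.mem_range_self j)) _
  univ z hz := by
    obtain ⟨φ, hφ⟩ := h.univ _ hz.tw
    refine ⟨φ, fun i => ?_⟩
    rw [map_tw, funext hφ, tw_tw hz]

variable [CharP k 3]

theorem cover {x : ℕ → A} (h : Pres k x) (P : Type u) [AddCommGroup P] [Module k P] [Module A P]
    [IsScalarTower k A P] [FiniteDimensional k P] [Module.Projective A P] [Nontrivial P] :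
    ∃ m1 < 3, ∃ m2 < 3, ∃ φ : A →ₐ[k] End k (Fin 81 → k), (∀ i, φ (x i) = yy k m1 m2 i) ∧
      ∃ π : P →ₗ[k] (Fin 81 → k), Function.Surjective π ∧ ∀ a p, π (a • p) = φ a (π p) := by
  have : Module.Finite A P := Module.Finite.of_restrictScalars_finite k A P
  obtain ⟨K, hK, -⟩ := (eq_top_or_exists_le_coatom (⊥ : Submodule A P)).resolve_left bot_ne_top
  have : IsSimpleModule A (P ⧸ K) := isSimpleModule_iff_isCoatom.2 hK
  have : Nontrivial (P ⧸ K) := IsSimpleModule.nontrivial A _
  obtain ⟨s, hs, m1, hm1, m2, hm2, he, h4, h5⟩ :=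
    hw_exists (h.rel.map (Algebra.lsmul k k (P ⧸ K) : A →ₐ[k] End k (P ⧸ K)) (three_smul k))
  simp only [Algebra.lsmul_apply] at he h4 h5
  have G := good_yy k hm1 hm2
  obtain ⟨φ, hφ⟩ := h.univ _ G.rel
  refine ⟨m1, hm1, m2, hm2, φ, hφ, ?_⟩
  obtain ⟨g, hg⟩ := Module.projective_lifting_property (LinearMap.toSpanSingleton A (P ⧸ K) s)
    K.mkQ (IsSimpleModule.toSpanSingleton_surjective A hs)
  have hg' : ∀ p, g p • s = K.mkQ p := fun p => LinearMap.congr_fun hg p
  let ρ : A →ₐ[k] End k A := Algebra.lsmul k k A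
  have hρ : ∀ a b, ρ a b = a * b := fun _ _ => rfl
  have hz : Rel fun i => ρ (x i) := h.rel.map ρ (three_smul k)
  let ev : A →ₗ[k] (Fin 81 → k) := (LinearMap.applyₗ (bv k 0)) ∘ₗ φ.toLinearMap
  have hev : ∀ a, ev a = φ a (bv k 0) := fun _ => rfl
  let J : Submodule k A := (LinearMap.ker (LinearMap.toSpanSingleton A (P ⧸ K) s)).restrictScalars k
  have hJ : ∀ a, a ∈ J ↔ a • s = 0 := fun _ => Iff.rfl
  let I : Submodule k A := J ⊓ LinearMap.ker ev
  have hI : ∀ a, a ∈ I ↔ a • s = 0 ∧ φ a (bv k 0) = 0 := fun _ => Iff.rfl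
  let N : Submodule k A := (LinearMap.range g).restrictScalars k
  have hN : ∀ a, a ∈ N ↔ ∃ p, g p = a := fun _ => Iff.rfl
  have sJ : Stab (fun i => ρ (x i)) J := by
    intro i u hu
    rw [hJ] at hu ⊢
    rw [hρ, mul_smul, hu, smul_zero]
  have sI : Stab (fun i => ρ (x i)) I := by
    intro i u hu
    rw [hI] at hu ⊢
    rw [hρ, mul_smul, hu.1, smul_zero, map_mul, Module.End.mul_apply, hu.2, map_zero]
    exact ⟨rfl, rfl⟩
  have sN : Stab (fun i => ρ (x i)) N := by
    rintro i _ ⟨p, rfl⟩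
    exact ⟨x i • p, by rw [map_smul]; rfl⟩
  have hw : HWmod (fun i => ρ (x i)) I 1 m1 m2 := by
    refine ⟨?_, ?_, ?_, ?_⟩ <;> rw [hI, hρ, mul_one]
    · exact ⟨he 0 (by norm_num), by rw [hφ, G.hw 0 (by norm_num)]⟩
    · exact ⟨he 1 (by norm_num), by rw [hφ, G.hw 1 (by norm_num)]⟩
    · refine ⟨by rw [sub_smul, h4, smul_assoc, one_smul, sub_self], ?_⟩
      rw [map_sub, map_nsmul, map_one, LinearMap.sub_apply, hφ, G.w4]; simp
    · refine ⟨by rw [sub_smul, h5, smul_assoc, one_smul, sub_self], ?_⟩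
      rw [map_sub, map_nsmul, map_one, LinearMap.sub_apply, hφ, G.w5]; simp
  have ht : I ⊔ SS (fun i => ρ (x i)) 1 = ⊤ := by
    rw [eq_top_iff]
    intro a _
    have := stab_all h.gen ρ (hw_stab hz sI hw) a 1 (Submodule.mem_sup_right (mem_SS _ _))
    rwa [hρ, mul_one] at this
  have hJt : J ≠ ⊤ := by
    intro h1
    have : (1 : A) ∈ J := h1 ▸ Submodule.mem_top
    rw [hJ, one_smul] at this
    exact hs this
  have hNJ : N ⊔ J = ⊤ := by
    rw [eq_top_iff]
    intro a _
    obtain ⟨p, hp⟩ := K.mkQ_surjective (a • s)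
    have : a = g p + (a - g p) := by abel
    rw [this]
    refine Submodule.add_mem_sup ⟨p, rfl⟩ ?_
    rw [hJ, sub_smul, hg', hp, sub_self]
  have hNI := hw_local hz ht sI sJ sN inf_le_left hJt hNJ
  obtain ⟨_, ⟨p0, rfl⟩, b, hb, hsum⟩ :=
    Submodule.mem_sup.1 (hNI ▸ Submodule.mem_top (x := (1 : A)))
  have hp0 : φ (g p0) (bv k 0) = bv k 0 := by
    have := congrArg (fun a => φ a (bv k 0)) hsum
    simp only [map_add, LinearMap.add_apply, ((hI b).1 hb).2, add_zero, map_one,
      Module.End.one_apply] at this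
    exact this
  let π : P →ₗ[k] (Fin 81 → k) := ev ∘ₗ (g.restrictScalars k)
  have hπ : ∀ a p, π (a • p) = φ a (π p) := by
    intro a p
    change φ (g (a • p)) (bv k 0) = φ a (φ (g p) (bv k 0))
    rw [map_smul, smul_eq_mul, map_mul, Module.End.mul_apply]
  refine ⟨π, ?_, hπ⟩
  rw [← LinearMap.range_eq_top]
  refine top_bv k fun a ha => ⟨evW x (mon a) • p0, ?_⟩
  rw [hπ, map_evW, funext hφ, ← G.gen a ha]
  exact congrArg _ hp0

theorem lower {x : ℕ → A} (h : Pres k x) : ∀ d ∈ pimDims k A, 81 < d := by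
  rintro d ⟨P, _, _, _, _, _, _, _, -, rfl⟩
  by_contra hlt
  obtain ⟨m1, hm1, m2, hm2, φ, hφ, π, hs, hπ⟩ := cover h P
  obtain ⟨n1, hn1, n2, hn2, φ', hφ', π', hs', hπ'⟩ := cover h.tw P
  have hd : finrank k P = finrank k (Fin 81 → k) := by
    have := LinearMap.finrank_le_finrank_of_surjective hs
    simp only [finrank_fintype_fun_eq_card, Fintype.card_fin] at this ⊢
    omega
  have hinj := (LinearMap.injective_iff_surjective_of_finrank_eq_finrank hd).2 hs
  have hE : ∀ p : P, evW x [1, 1, 0, 0, 2, 2, 3, 3] • p = 0 := by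
    intro p
    apply hinj
    rw [hπ, map_evW, funext hφ, (good_yy k hm1 hm2).ezero, map_zero]; rfl
  have hEF : evW x [1, 1, 0, 0, 2, 2, 3, 3] = evW (tw x) (mon 80) := by
    have : mon 80 = [7, 7, 6, 6, 8, 8, 9, 9] := by decide
    rw [this]
    simp [tw, omg, evP]
  obtain ⟨p, hp⟩ := hs' (bv k 0)
  have := hπ' (evW (tw x) (mon 80)) p
  rw [← hEF, hE, map_zero, hEF, map_evW, funext hφ', hp,
    (good_yy k hn1 hn2).gen 80 (by norm_num)] at this
  exact bv_ne k (by norm_num) this.symm

omit [CharP k 3] in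
theorem fin_sub {P : Type u} [AddCommGroup P] [Module k P] [Module A P]
    [IsScalarTower k A P] [FiniteDimensional k P] (N : Submodule A P) : FiniteDimensional k N :=
  Module.Finite.of_injective (N.subtype.restrictScalars k) N.injective_subtype

omit [CharP k 3] in
theorem proj_sub {P : Type u} [AddCommGroup P] [Module A P] [Module.Projective A P]
    {N N' : Submodule A P} (h : IsCompl N N') : Module.Projective A N :=
  Module.Projective.of_split N.subtype (N.projectionOnto N' h) (by ext; simp)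

omit [CharP k 3] in
theorem exists_pim (n : ℕ) : ∀ (P : Type u) [AddCommGroup P] [Module k P] [Module A P]
    [IsScalarTower k A P] [FiniteDimensional k P] [Module.Projective A P] [Nontrivial P],
    finrank k P ≤ n → ∃ d ∈ pimDims k A, d ≤ n := by
  induction n with
  | zero =>
    intro P _ _ _ _ _ _ _ hP
    have : 0 < finrank k P := Module.finrank_pos
    omega
  | succ n ih =>
    intro P _ _ _ _ _ _ _ hP
    by_cases hi : ∀ N N' : Submodule A P, IsCompl N N' → N = ⊥ ∨ N' = ⊥
    · exact ⟨_, ⟨P, _, _, _, inferInstance, inferInstance, inferInstance, inferInstance, hi, rfl⟩,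
        hP⟩
    · push Not at hi
      obtain ⟨N, N', hc, h1, h2⟩ := hi
      have := fin_sub (k := k) N
      have := proj_sub hc
      have : Nontrivial N := Submodule.nontrivial_iff_ne_bot.2 h1
      have hne : N.restrictScalars k ≠ ⊤ := by
        intro ht
        rw [Submodule.restrictScalars_eq_top_iff] at ht
        subst ht
        exact h2 (eq_bot_of_top_isCompl hc)
      have hlt : finrank k N < finrank k P := Submodule.finrank_lt hne
      obtain ⟨d, hd, hdn⟩ := ih N (by omega)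
      exact ⟨d, hd, by omega⟩

theorem evP_yy (m1 m2 : ℕ) (p : Pol) (a : ℕ) :
    evP (yy k m1 m2) p (bv k a) = evL (bv k) (bind p fun w => appW m1 m2 w [(1, a)]) := by
  unfold evP
  rw [evL_apply, evL_bind]
  simp only [evW_yy_bv]

theorem eps_v : evP (yy k 2 2) epsP (bv k 0) = bv k 0 := by
  have : same (bind epsP fun w => appW 2 2 w [(1, 0)]) [(1, 0)] = true := by decide +kernel
  rw [evP_yy, evL_same (three_smul k) _ this]; simp

theorem om_v : evP (yy k 2 2) omP (bv k 0) = bv k 0 := by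
  have : same (bind omP fun w => appW 2 2 w [(1, 0)]) [(1, 0)] = true := by decide +kernel
  rw [evP_yy, evL_same (three_smul k) _ this]; simp

theorem psi_v (n : ℕ) : (psi (yy k 2 2) ^ n) (bv k 0) = (2 : k) ^ n • bv k 0 := by
  induction n with
  | zero => simp
  | succ n ih =>
    have : psi (yy k 2 2) (bv k 0) = (2 : k) • bv k 0 := by
      rw [psi, LinearMap.add_apply, Module.End.mul_apply, om_v, om_v, two_smul]
    rw [pow_succ, Module.End.mul_apply, this, map_smul, ih, smul_smul, pow_succ']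

omit [CharP k 3] in
theorem map_psi {B : Type*} [Ring B] [Algebra k B] (φ : A →ₐ[k] B) (x : ℕ → A) :
    φ (psi x) = psi fun i => φ (x i) := by
  simp only [psi, map_add, map_mul, map_evP]

theorem upper {x : ℕ → A} (h : Pres k x) : ∃ d ∈ pimDims k A, d ≤ 162 := by
  let ρ : A →ₐ[k] End k A := Algebra.lsmul k k A
  have hρ : ∀ a b, ρ a b = a * b := fun _ _ => rfl
  have hz : Rel fun i => ρ (x i) := h.rel.map ρ (three_smul k)
  obtain ⟨N, B, hε⟩ := chain hz (w := evP x epsP) (eps_0 h.rel) (eps_3 h.rel) (eps_4 h.rel)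
    (eps_5 h.rel)
  have hεε := eps_sq h.rel
  obtain ⟨φ, hφ⟩ := h.univ _ (good_yy k (m1 := 2) (m2 := 2) (by norm_num) (by norm_num)).rel
  have hφε : φ (evP x epsP) (bv k 0) = bv k 0 := by rw [map_evP, funext hφ, eps_v]
  have hφψ : ∀ n, φ (psi x ^ n) (bv k 0) = (2 : k) ^ n • bv k 0 := fun n => by
    rw [map_pow, map_psi, funext hφ, psi_v]
  have hcen : ∀ a, Commute (psi x) a := fun a => by
    refine Algebra.commute_of_mem_adjoin_of_forall_mem_commute (R := k) (s := Set.range x)
      (h.gen ▸ Algebra.mem_top) ?_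
    rintro _ ⟨i, rfl⟩
    have : Commute (evP x omP) (x i) := (om_comm h.rel i).symm
    exact (this.mul_left this).add_left this
  obtain ⟨n, hn⟩ := B.rank
  rw [← map_psi, ← map_pow] at hn
  have hst := stab_all h.gen ρ B.stab
  have := B.fin
  generalize evP x epsP = ε at *
  generalize psi x = ψ at *
  let Q : Submodule A A := LinearMap.range (LinearMap.toSpanSingleton A A ε)
  have hQ : ∀ q, q ∈ Q ↔ ∃ a, a * ε = q := fun _ => Iff.rfl
  have hQN : ∀ q ∈ Q, q ∈ N := by
    rintro _ ⟨a, rfl⟩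
    exact hst a ε hε
  have : FiniteDimensional k Q :=
    Module.Finite.of_injective
      (LinearMap.codRestrict N (Q.subtype.restrictScalars k) fun q => hQN q.1 q.2)
      (fun a b hab => by
        have h1 := congrArg Subtype.val hab
        exact Subtype.ext h1)
  have : Module.Projective A Q :=
    Module.Projective.of_split Q.subtype (LinearMap.toSpanSingleton A A ε).rangeRestrict (by
      ext ⟨_, a, rfl⟩
      change a * ε * ε = a * ε
      rw [mul_assoc, hεε])
  have : IsArtinian A Q := isArtinian_of_tower k inferInstance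
  have : IsNoetherian A Q := isNoetherian_of_tower k inferInstance
  let T : End A Q := (LinearMap.toSpanSingleton A A ψ).restrict (p := Q) (q := Q) (by
    rintro _ ⟨a, rfl⟩
    refine ⟨a * ψ, ?_⟩
    change a * ψ * ε = a * ε * ψ
    rw [mul_assoc, mul_assoc, (hcen ε).eq])
  have hT : ∀ (m : ℕ) (q : Q), ((T ^ m) q : A) = ψ ^ m * q := by
    intro m
    induction m with
    | zero => simp
    | succ m ih =>
      intro q
      rw [pow_succ, Module.End.mul_apply, ih]
      change ψ ^ m * (q * ψ) = _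
      rw [← (hcen q).eq, pow_succ, mul_assoc]
  obtain ⟨n', hc, hn'⟩ := ((LinearMap.eventually_isCompl_ker_pow_range_pow T).and
    (Filter.eventually_ge_atTop n)).exists
  have := fin_sub (k := k) (LinearMap.range (T ^ n'))
  have := proj_sub hc.symm
  have : Nontrivial (LinearMap.range (T ^ n')) := by
    rw [Submodule.nontrivial_iff_ne_bot, Submodule.ne_bot_iff]
    refine ⟨(T ^ n') ⟨ε, 1, one_mul ε⟩, ⟨_, rfl⟩, fun h0 => ?_⟩
    have h1 := hT n' ⟨ε, 1, one_mul ε⟩
    rw [h0] at h1
    have h2 := congrArg (fun a => φ a (bv k 0)) h1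
    simp only [ZeroMemClass.coe_zero, map_zero, LinearMap.zero_apply, map_mul,
      Module.End.mul_apply, hφε, hφψ] at h2
    have h3 : (2 : k) ≠ 0 := by
      intro h2
      have h3 : ((3 : ℕ) : k) = 0 := CharP.cast_eq_zero k 3
      have : (1 : k) = ((3 : ℕ) : k) - 2 := by norm_num
      rw [h3, h2, sub_zero] at this
      exact one_ne_zero this
    exact smul_ne_zero (pow_ne_zero _ h3) (bv_ne k (by norm_num)) h2.symm
  refine exists_pim 162 (LinearMap.range (T ^ n')) (le_trans ?_ hn)
  refine LinearMap.finrank_le_finrank_of_injective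
    (f := LinearMap.codRestrict (N.map (ρ (ψ ^ n)))
      ((Q.subtype ∘ₗ (LinearMap.range (T ^ n')).subtype).restrictScalars k) ?_) ?_
  · rintro ⟨_, q, rfl⟩
    refine ⟨ψ ^ (n' - n) * q, hst _ _ (hQN _ q.2), ?_⟩
    change ψ ^ n * (ψ ^ (n' - n) * q) = ((T ^ n') q : A)
    rw [hT, ← mul_assoc, ← pow_add, Nat.add_sub_cancel' hn']
  · intro a b hab
    have h1 := congrArg Subtype.val hab
    exact Subtype.ext (Subtype.ext h1)

end Pool.Agent.Lib.MP_b2f0a7_al
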