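import Pool.Agent.Lib.MP_b2f0a7_al.Rep

/-! Highest weight theory for families of operators satisfying the relations of br(2). -/

namespace Pool.Agent.Lib.MP_b2f0a7_al

set_option maxHeartbeats 400000

open Module

variable {k : Type*} [Field k] {M : Type*} [AddCommGroup M] [Module k M]

def St (y : End k M) (U : Submodule k M) : Prop := ∀ u ∈ U, y u ∈ U

def Stab (z : ℕ → End k M) (U : Submodule k M) : Prop := ∀ i, St (z i) U

structure FStab (z : ℕ → End k M) (U : Submodule k M) : Prop where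
  s6 : St (z 6) U
  s7 : St (z 7) U
  s8 : St (z 8) U
  s9 : St (z 9) U

theorem St.sup {y : End k M} {U W : Submodule k M} (h1 : ∀ u ∈ U, y u ∈ U ⊔ W)
    (h2 : ∀ u ∈ W, y u ∈ U ⊔ W) : St y (U ⊔ W) := by
  intro u hu
  obtain ⟨a, ha, b, hb, rfl⟩ := Submodule.mem_sup.1 hu
  rw [map_add]; exact add_mem (h1 a ha) (h2 b hb)

theorem St.sup' {y : End k M} {U W : Submodule k M} (h1 : St y U) (h2 : St y W) : St y (U ⊔ W) :=
  St.sup (fun u hu => Submodule.mem_sup_left (h1 u hu)) (fun u hu => Submodule.mem_sup_right (h2 u hu))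

theorem Stab.evW {z : ℕ → End k M} {U : Submodule k M} (h : Stab z U) (w : List ℕ) :
    St (evW z w) U := by
  induction w with
  | nil => intro u hu; simpa using hu
  | cons i w ih => intro u hu; rw [evW_cons]; exact h i _ (ih u hu)

theorem Stab.evP {z : ℕ → End k M} {U : Submodule k M} (h : Stab z U) (p : Pol) :
    St (evP z p) U := by
  intro u hu
  unfold MP_b2f0a7_al.evP
  rw [evL_apply]
  exact evL_mem U _ (fun w => h.evW w u hu) _

variable {z : ℕ → End k M}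

theorem Rel.app (h : Rel z) (i j : ℕ) (u : M) :
    z i (z j u) = z j (z i u) + evL (fun a => z a u) (br i j) := by
  have := LinearMap.congr_fun (h.comm i j) u
  rwa [LinearMap.add_apply, evL_apply] at this

theorem Rel.nil (h : Rel z) {i : ℕ} (h4 : i ≠ 4) (h5 : i ≠ 5) (u : M) : z i (z i (z i u)) = 0 := by
  have := LinearMap.congr_fun (h.cube i) u
  simpa [cu, h4, h5] using this

theorem Rel.tor (h : Rel z) {i : ℕ} (h4 : i = 4 ∨ i = 5) (u : M) : z i (z i (z i u)) = z i u := by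
  have := LinearMap.congr_fun (h.cube i) u
  simpa [cu, h4] using this

theorem nil_step {W : Submodule k M} (hW : W ≠ ⊥) {y : End k M} (hy : St y W)
    (h3 : ∀ u, y (y (y u)) = 0) : W ⊓ LinearMap.ker y ≠ ⊥ := by
  obtain ⟨u, hu, h0⟩ := (Submodule.ne_bot_iff W).1 hW
  rw [Submodule.ne_bot_iff]
  by_cases h1 : y u = 0
  · exact ⟨u, ⟨hu, h1⟩, h0⟩
  · by_cases h2 : y (y u) = 0
    · exact ⟨y u, ⟨hy u hu, h2⟩, h1⟩
    · exact ⟨y (y u), ⟨hy _ (hy u hu), h3 u⟩, h2⟩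

theorem tor_step [CharP k 3] {W : Submodule k M} (hW : W ≠ ⊥) {y : End k M} (hy : St y W)
    (h3 : ∀ u, y (y (y u)) = y u) : ∃ m : ℕ, m < 3 ∧ W ⊓ LinearMap.ker (y - (m : End k M)) ≠ ⊥ := by
  obtain ⟨u, hu, h0⟩ := (Submodule.ne_bot_iff W).1 hW
  simp only [Submodule.ne_bot_iff]
  by_cases h1 : y u = 0
  · exact ⟨0, by norm_num, u, ⟨hu, by simpa using h1⟩, h0⟩
  · by_cases h2 : y (y u) - y u = 0
    · exact ⟨1, by norm_num, y u, ⟨hy u hu, by simpa using h2⟩, h1⟩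
    · refine ⟨2, by norm_num, y (y u) - y u, ⟨sub_mem (hy _ (hy u hu)) (hy u hu), ?_⟩, h2⟩
      have := three_smul k (y (y u) - y u)
      change (y - ((2 : ℕ) : End k M)) (y (y u) - y u) = 0
      rw [LinearMap.sub_apply, Module.End.natCast_apply, map_sub, h3, ← neg_eq_zero, ← this]
      abel

theorem hw_exists [CharP k 3] [Nontrivial M] (h : Rel z) : ∃ s : M, s ≠ 0 ∧ ∃ m1 < 3, ∃ m2 < 3,
    (∀ i < 4, z i s = 0) ∧ z 4 s = m1 • s ∧ z 5 s = m2 • s := by
  have h1 := nil_step (W := ⊤) top_ne_bot (y := z 3) (fun _ _ => trivial)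
    (h.nil (by norm_num) (by norm_num))
  have h2 := nil_step h1 (y := z 2) (by
    rintro u ⟨-, h3⟩
    simp only [SetLike.mem_coe, LinearMap.mem_ker] at h3
    simp [h.app 3 2, br, brT, h3]) (h.nil (by norm_num) (by norm_num))
  have h3 := nil_step h2 (y := z 0) (by
    rintro u ⟨⟨-, h3⟩, h2⟩
    simp only [SetLike.mem_coe, LinearMap.mem_ker] at h3 h2
    simp [h.app 3 0, h.app 2 0, br, brT, h3, h2]) (h.nil (by norm_num) (by norm_num))
  have h4 := nil_step h3 (y := z 1) (by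
    rintro u ⟨⟨⟨-, h3⟩, h2⟩, h0⟩
    simp only [SetLike.mem_coe, LinearMap.mem_ker] at h3 h2 h0
    simp [h.app 3 1, h.app 2 1, h.app 0 1, br, brT, h3, h2, h0])
    (h.nil (by norm_num) (by norm_num))
  obtain ⟨m1, hm1, h5⟩ := tor_step h4 (y := z 4) (by
    rintro u ⟨⟨⟨⟨-, h3⟩, h2⟩, h0⟩, h1⟩
    simp only [SetLike.mem_coe, LinearMap.mem_ker] at h3 h2 h0 h1
    simp [h.app 3 4, h.app 2 4, h.app 0 4, h.app 1 4, br, brT, h3, h2, h0, h1])
    (h.tor (Or.inl rfl))
  obtain ⟨m2, hm2, h6⟩ := tor_step h5 (y := z 5) (by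
    rintro u ⟨⟨⟨⟨⟨-, h3⟩, h2⟩, h0⟩, h1⟩, h4⟩
    simp only [SetLike.mem_coe, LinearMap.mem_ker, LinearMap.sub_apply, Module.End.natCast_apply,
      sub_eq_zero] at h3 h2 h0 h1 h4
    simp [h.app 3 5, h.app 2 5, h.app 0 5, h.app 1 5, h.app 4 5, br, brT, h3, h2, h0, h1, h4])
    (h.tor (Or.inr rfl))
  obtain ⟨s, ⟨⟨⟨⟨⟨⟨-, h3⟩, h2⟩, h0⟩, h1⟩, h4⟩, h5⟩, hs⟩ := (Submodule.ne_bot_iff _).1 h6
  simp only [SetLike.mem_coe, LinearMap.mem_ker, LinearMap.sub_apply, Module.End.natCast_apply,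
      sub_eq_zero] at h3 h2 h0 h1 h4 h5
  refine ⟨s, hs, m1, hm1, m2, hm2, ?_, h4, h5⟩
  intro i hi
  interval_cases i <;> assumption

theorem nak_step {U : Submodule k M} {y : End k M} (hy : St y U) (h3 : ∀ u, y (y (y u)) = 0)
    (h : U ⊔ LinearMap.range y = ⊤) : U = ⊤ := by
  have key : ∀ m : M, ∃ u ∈ U, ∃ m', m = u + y m' := by
    intro m
    obtain ⟨a, ha, b, ⟨c, rfl⟩, rfl⟩ := Submodule.mem_sup.1 (h ▸ Submodule.mem_top (x := m))
    exact ⟨a, ha, c, rfl⟩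
  rw [eq_top_iff]
  intro m _
  obtain ⟨u1, hu1, m1, rfl⟩ := key m
  obtain ⟨u2, hu2, m2, rfl⟩ := key m1
  obtain ⟨u3, hu3, m3, rfl⟩ := key m2
  simp only [map_add, h3, add_zero]
  exact add_mem hu1 (add_mem (hy _ hu2) (hy _ (hy _ hu3)))

def fR (z : ℕ → End k M) (U : Submodule k M) : Submodule k M :=
  U ⊔ LinearMap.range (z 9) ⊔ LinearMap.range (z 8) ⊔ LinearMap.range (z 6) ⊔
    LinearMap.range (z 7)

theorem St.supR {o y : End k M} {U : Submodule k M} (h1 : St o U)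
    (h2 : ∀ m, o (y m) - y (o m) ∈ U) : St o (U ⊔ LinearMap.range y) := by
  refine St.sup (fun u hu => Submodule.mem_sup_left (h1 u hu)) ?_
  rintro _ ⟨m, rfl⟩
  have : o (y m) = (o (y m) - y (o m)) + y (o m) := by abel
  rw [this]
  exact Submodule.add_mem_sup (h2 m) ⟨_, rfl⟩

theorem nak (h : Rel z) {U : Submodule k M} (hU : FStab z U) (ht : fR z U = ⊤) : U = ⊤ := by
  have n : ∀ i, i ≠ 4 → i ≠ 5 → ∀ u, z i (z i (z i u)) = 0 := fun i a b => h.nil a b
  refine nak_step hU.s9 (n 9 (by norm_num) (by norm_num)) ?_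
  refine nak_step (y := z 8) ?_ (n 8 (by norm_num) (by norm_num)) ?_
  · exact hU.s8.supR (by simp [h.app 8 9, br, brT])
  refine nak_step (y := z 6) ?_ (n 6 (by norm_num) (by norm_num)) ?_
  · exact (hU.s6.supR (by simp [h.app 6 9, br, brT])).supR (by simp [h.app 6 8, br, brT])
  refine nak_step (y := z 7) ?_ (n 7 (by norm_num) (by norm_num)) ht
  refine ((hU.s7.supR (by simp [h.app 7 9, br, brT])).supR ?_).supR ?_
  · intro m
    have : z 7 (z 8 m) - z 8 (z 7 m) = 2 • z 9 m := by simp [h.app 7 8, br, brT]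
    rw [this]
    exact nsmul_mem (Submodule.mem_sup_right (LinearMap.mem_range_self _ _)) _
  · intro m
    have : z 7 (z 6 m) - z 6 (z 7 m) = 2 • z 8 m := by simp [h.app 7 6, br, brT]
    rw [this]
    exact nsmul_mem (Submodule.mem_sup_right (LinearMap.mem_range_self _ _)) _

def tw3 (y : End k M) (S : Submodule k M) : Submodule k M := S ⊔ S.map y ⊔ (S.map y).map y

theorem le_tw3 (y : End k M) (S : Submodule k M) : S ≤ tw3 y S :=
  le_sup_left.trans le_sup_left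

theorem mem_tw3_1 {y : End k M} {S : Submodule k M} {u : M} (hu : u ∈ S) : y u ∈ tw3 y S :=
  Submodule.mem_sup_left (Submodule.mem_sup_right ⟨u, hu, rfl⟩)

theorem mem_tw3_2 {y : End k M} {S : Submodule k M} {u : M} (hu : u ∈ S) : y (y u) ∈ tw3 y S :=
  Submodule.mem_sup_right ⟨y u, ⟨u, hu, rfl⟩, rfl⟩

theorem tw3_St {o y : End k M} {S : Submodule k M} (h0 : ∀ u ∈ S, o u ∈ tw3 y S)
    (h1 : ∀ u ∈ S, o (y u) ∈ tw3 y S) (h2 : ∀ u ∈ S, o (y (y u)) ∈ tw3 y S) : St o (tw3 y S) := by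
  intro u hu
  obtain ⟨a, ha, _, ⟨_, ⟨c, hc, rfl⟩, rfl⟩, rfl⟩ := Submodule.mem_sup.1 hu
  obtain ⟨a', ha', _, ⟨b, hb, rfl⟩, rfl⟩ := Submodule.mem_sup.1 ha
  rw [map_add, map_add]
  exact add_mem (add_mem (h0 a' ha') (h1 b hb)) (h2 c hc)

theorem tw3_self {y : End k M} {S : Submodule k M} (h3 : ∀ u, y (y (y u)) = 0) :
    St y (tw3 y S) :=
  tw3_St (fun _ hu => mem_tw3_1 hu) (fun _ hu => mem_tw3_2 hu)
    (fun u _ => by rw [h3]; exact zero_mem _)

theorem tw3_other {o o' y : End k M} {S : Submodule k M} (hy : St y (tw3 y S)) (ho : St o S)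
    (ho' : St o' (tw3 y S)) (hc : ∀ u, o (y u) = y (o u) + o' u) : St o (tw3 y S) := by
  have h1 : ∀ u ∈ S, o (y u) ∈ tw3 y S := fun u hu => by
    rw [hc]; exact add_mem (mem_tw3_1 (ho u hu)) (ho' u (le_tw3 y S hu))
  refine tw3_St (fun u hu => le_tw3 y S (ho u hu)) h1 (fun u hu => ?_)
  rw [hc]; exact add_mem (hy _ (h1 u hu)) (ho' _ (mem_tw3_1 hu))

theorem St_zero (U : Submodule k M) : St 0 U := fun _ _ => by simp

theorem tw3_le {y : End k M} {S U : Submodule k M} (h : S ≤ U) (hy : St y U) : tw3 y S ≤ U := by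
  refine sup_le (sup_le h ?_) ?_
  · rintro _ ⟨u, hu, rfl⟩; exact hy u (h hu)
  · rintro _ ⟨_, ⟨u, hu, rfl⟩, rfl⟩; exact hy _ (hy u (h hu))

instance tw3_fin (y : End k M) (S : Submodule k M) [FiniteDimensional k S] :
    FiniteDimensional k (tw3 y S) := by unfold tw3; infer_instance

theorem tw3_rank (y : End k M) (S : Submodule k M) [FiniteDimensional k S] :
    finrank k (tw3 y S) ≤ 3 * finrank k S := by
  have h1 := Submodule.finrank_add_le_finrank_add_finrank (S ⊔ S.map y) ((S.map y).map y)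
  have h2 := Submodule.finrank_add_le_finrank_add_finrank S (S.map y)
  have h3 := Submodule.finrank_map_le y S
  have h4 := Submodule.finrank_map_le y (S.map y)
  unfold tw3
  omega

def SS (z : ℕ → End k M) (w : M) : Submodule k M :=
  tw3 (z 7) (tw3 (z 6) (tw3 (z 8) (tw3 (z 9) (Submodule.span k {w}))))

instance SS_fin (z : ℕ → End k M) (w : M) : FiniteDimensional k (SS z w) := by
  unfold SS; infer_instance

theorem SS_rank (z : ℕ → End k M) (w : M) : finrank k (SS z w) ≤ 81 := by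
  have h0 : finrank k (Submodule.span k {w}) ≤ 1 := by
    simpa using finrank_span_le_card (R := k) ({w} : Set M)
  have h1 := tw3_rank (z 9) (Submodule.span k {w})
  have h2 := tw3_rank (z 8) (tw3 (z 9) (Submodule.span k {w}))
  have h3 := tw3_rank (z 6) (tw3 (z 8) (tw3 (z 9) (Submodule.span k {w})))
  have h4 := tw3_rank (z 7) (tw3 (z 6) (tw3 (z 8) (tw3 (z 9) (Submodule.span k {w}))))
  unfold SS
  omega

theorem mem_SS (z : ℕ → End k M) (w : M) : w ∈ SS z w :=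
  le_tw3 _ _ (le_tw3 _ _ (le_tw3 _ _ (le_tw3 _ _ (Submodule.mem_span_singleton_self w))))

theorem SS_le {w : M} {U : Submodule k M} (hw : w ∈ U) (hU : FStab z U) : SS z w ≤ U :=
  tw3_le (tw3_le (tw3_le (tw3_le ((Submodule.span_singleton_le_iff_mem _ _).2 hw) hU.s9) hU.s8)
    hU.s6) hU.s7

theorem SS_fstab (h : Rel z) (w : M) : FStab z (SS z w) := by
  have n : ∀ i, i ≠ 4 → i ≠ 5 → ∀ u, z i (z i (z i u)) = 0 := fun i a b => h.nil a b
  set S0 := Submodule.span k {w}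
  have a9 : St (z 9) (tw3 (z 9) S0) := tw3_self (n 9 (by norm_num) (by norm_num))
  set S1 := tw3 (z 9) S0
  have b8 : St (z 8) (tw3 (z 8) S1) := tw3_self (n 8 (by norm_num) (by norm_num))
  have b9 : St (z 9) (tw3 (z 8) S1) :=
    tw3_other b8 a9 (St_zero _) (by simp [h.app 9 8, br, brT])
  set S2 := tw3 (z 8) S1
  have c6 : St (z 6) (tw3 (z 6) S2) := tw3_self (n 6 (by norm_num) (by norm_num))
  have c8 : St (z 8) (tw3 (z 6) S2) :=
    tw3_other c6 b8 (St_zero _) (by simp [h.app 8 6, br, brT])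
  have c9 : St (z 9) (tw3 (z 6) S2) :=
    tw3_other c6 b9 (St_zero _) (by simp [h.app 9 6, br, brT])
  set S3 := tw3 (z 6) S2
  have d7 : St (z 7) (tw3 (z 7) S3) := tw3_self (n 7 (by norm_num) (by norm_num))
  have d9 : St (z 9) (tw3 (z 7) S3) :=
    tw3_other d7 c9 (St_zero _) (by simp [h.app 9 7, br, brT])
  have d8 : St (z 8) (tw3 (z 7) S3) :=
    tw3_other d7 c8 d9 (by simp [h.app 8 7, br, brT])
  have d6 : St (z 6) (tw3 (z 7) S3) :=
    tw3_other d7 c6 d8 (by simp [h.app 6 7, br, brT])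
  exact ⟨d6, d7, d8, d9⟩

/-- `w` is a highest weight vector of weight `(m1, m2)` modulo `N`. -/
structure HWmod (z : ℕ → End k M) (N : Submodule k M) (w : M) (m1 m2 : ℕ) : Prop where
  e0 : z 0 w ∈ N
  e1 : z 1 w ∈ N
  w4 : z 4 w - m1 • w ∈ N
  w5 : z 5 w - m2 • w ∈ N

theorem HWmod.e2 (h : Rel z) {N : Submodule k M} (hN : Stab z N) {w : M} {m1 m2 : ℕ}
    (hw : HWmod z N w m1 m2) : z 2 w ∈ N := by
  have : z 2 w = z 0 (z 1 w) - z 1 (z 0 w) := by simp [h.app 0 1, br, brT]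
  rw [this]; exact sub_mem (hN 0 _ hw.e1) (hN 1 _ hw.e0)

theorem HWmod.e3 (h : Rel z) {N : Submodule k M} (hN : Stab z N) {w : M} {m1 m2 : ℕ}
    (hw : HWmod z N w m1 m2) : z 3 w ∈ N := by
  have : z 3 w = z 2 (z 1 w) - z 1 (z 2 w) := by simp [h.app 2 1, br, brT]
  rw [this]; exact sub_mem (hN 2 _ hw.e1) (hN 1 _ (hw.e2 h hN))

theorem hw_stab (h : Rel z) {N : Submodule k M} (hN : Stab z N) {w : M} {m1 m2 : ℕ}
    (hw : HWmod z N w m1 m2) : Stab z (N ⊔ SS z w) := by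
  have hS := SS_fstab h w
  have hf : FStab z (N ⊔ SS z w) :=
    ⟨(hN 6).sup' hS.s6, (hN 7).sup' hS.s7, (hN 8).sup' hS.s8, (hN 9).sup' hS.s9⟩
  set U := N ⊔ SS z w with hU
  let U' : Submodule k M := ⨅ i, U.comap (z i)
  have mem : ∀ u, u ∈ U' ↔ ∀ i, z i u ∈ U := fun u => by simp [U']
  have st : ∀ j, St (z j) U → St (z j) U' := by
    intro j hj u hu
    rw [mem] at hu ⊢
    intro i
    rw [h.app i j]
    exact add_mem (hj _ (hu i)) (evL_mem U _ hu _)
  have hwU : w ∈ U := Submodule.mem_sup_right (mem_SS z w)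
  have hw' : w ∈ U' := by
    rw [mem]
    intro i
    by_cases hi : i < 10
    · interval_cases i
      · exact Submodule.mem_sup_left hw.e0
      · exact Submodule.mem_sup_left hw.e1
      · exact Submodule.mem_sup_left (hw.e2 h hN)
      · exact Submodule.mem_sup_left (hw.e3 h hN)
      · have : z 4 w = (z 4 w - m1 • w) + m1 • w := by abel
        rw [this]; exact add_mem (Submodule.mem_sup_left hw.w4) (nsmul_mem hwU _)
      · have : z 5 w = (z 5 w - m2 • w) + m2 • w := by abel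
        rw [this]; exact add_mem (Submodule.mem_sup_left hw.w5) (nsmul_mem hwU _)
      · exact hf.s6 w hwU
      · exact hf.s7 w hwU
      · exact hf.s8 w hwU
      · exact hf.s9 w hwU
    · rw [h.zero i (not_lt.1 hi)]; simp
  have hle : U ≤ U' := by
    refine sup_le ?_ (SS_le hw' ⟨st 6 hf.s6, st 7 hf.s7, st 8 hf.s8, st 9 hf.s9⟩)
    intro u hu
    rw [mem]
    intro i
    exact Submodule.mem_sup_left (hN i u hu)
  intro i u hu
  exact (mem u).1 (hle hu) i

theorem SS_le_fR (w : M) : SS z w ≤ fR z (Submodule.span k {w}) := by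
  refine SS_le ?_ ⟨?_, ?_, ?_, ?_⟩
  · exact Submodule.mem_sup_left (Submodule.mem_sup_left (Submodule.mem_sup_left
      (Submodule.mem_sup_left (Submodule.mem_span_singleton_self w))))
  · exact fun u _ => Submodule.mem_sup_left (Submodule.mem_sup_right ⟨u, rfl⟩)
  · exact fun u _ => Submodule.mem_sup_right ⟨u, rfl⟩
  · exact fun u _ => Submodule.mem_sup_left (Submodule.mem_sup_left
      (Submodule.mem_sup_right ⟨u, rfl⟩))
  · exact fun u _ => Submodule.mem_sup_left (Submodule.mem_sup_left (Submodule.mem_sup_left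
      (Submodule.mem_sup_right ⟨u, rfl⟩)))

theorem fR_mono {U W : Submodule k M} (h : U ≤ W) : fR z U ≤ fR z W := by
  unfold fR; gcongr

theorem le_fR (U : Submodule k M) : U ≤ fR z U :=
  le_sup_left.trans (le_sup_left.trans (le_sup_left.trans le_sup_left))

theorem fR_sup (U W : Submodule k M) : fR z (U ⊔ W) = U ⊔ fR z W := by
  simp only [fR, sup_assoc]

/-- A highest weight module has a unique maximal submodule, in the form needed. -/
theorem hw_local (h : Rel z) {I J N : Submodule k M} {w : M} (hI : I ⊔ SS z w = ⊤)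
    (hIs : Stab z I) (hJ : Stab z J) (hN : Stab z N) (hIJ : I ≤ J) (hJt : J ≠ ⊤)
    (hNJ : N ⊔ J = ⊤) : N ⊔ I = ⊤ := by
  have h0 : I ⊔ fR z (Submodule.span k {w}) = ⊤ :=
    top_le_iff.1 (hI ▸ sup_le_sup_left (SS_le_fR w) I)
  have h1 : J ≤ fR z I := by
    intro j hj
    by_contra hc
    apply hJt
    refine nak h ⟨hJ 6, hJ 7, hJ 8, hJ 9⟩ ?_
    have h2 : Submodule.span k {w} ⊔ fR z I = ⊤ := by
      rw [← fR_sup, sup_comm, fR_sup, h0]
    obtain ⟨a, ha, b, hb, rfl⟩ := Submodule.mem_sup.1 (h2 ▸ Submodule.mem_top (x := j))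
    obtain ⟨c, rfl⟩ := Submodule.mem_span_singleton.1 ha
    have hc0 : c ≠ 0 := by rintro rfl; simp [hb] at hc
    have hwJ : w ∈ fR z J := by
      have : w = c⁻¹ • ((c • w + b) - b) := by simp [smul_smul, hc0]
      rw [this]
      exact Submodule.smul_mem _ _ (sub_mem (le_fR J hj) (fR_mono hIJ hb))
    rw [eq_top_iff, ← h2]
    exact sup_le ((Submodule.span_singleton_le_iff_mem _ _).2 hwJ) (fR_mono hIJ)
  refine nak h ⟨(hN 6).sup' (hIs 6), (hN 7).sup' (hIs 7), (hN 8).sup' (hIs 8),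
    (hN 9).sup' (hIs 9)⟩ ?_
  rw [fR_sup, eq_top_iff, ← hNJ]
  exact sup_le_sup_left h1 N

def gam (m1 m2 : ℕ) : ℕ := 2 * m2 + 2 * (m1 * m2) + m2 * m2

theorem om_hw (h : Rel z) {N : Submodule k M} (hN : Stab z N) {w : M} {m1 m2 : ℕ}
    (hw : HWmod z N w m1 m2) (h4 : z 4 w = m1 • w) (h5 : z 5 w = m2 • w) :
    evP z omP w - gam m1 m2 • w ∈ N := by
  have : evP z omP w - gam m1 m2 • w =
      2 • z 6 (z 0 w) + z 7 (z 1 w) + 2 • z 8 (z 2 w) + z 9 (z 3 w) := by
    simp only [evP, omP, evL_cons, evL_nil, evW_cons, evW_nil, gam, LinearMap.add_apply,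
      LinearMap.smul_apply, Module.End.mul_apply, Module.End.one_apply, h4, h5, map_nsmul,
      LinearMap.zero_apply]
    module
  rw [this]
  exact add_mem (add_mem (add_mem (nsmul_mem (hN 6 _ hw.e0) _) (hN 7 _ hw.e1))
    (nsmul_mem (hN 8 _ (hw.e2 h hN)) _)) (hN 9 _ (hw.e3 h hN))

theorem om_SS (h : Rel z) {N : Submodule k M} (hN : Stab z N) {w : M} {c : ℕ}
    (hw : evP z omP w - c • w ∈ N) : ∀ u ∈ N ⊔ SS z w, evP z omP u - c • u ∈ N := by
  let U : Submodule k M := N.comap (evP z omP - (c : End k M))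
  have mem : ∀ u, u ∈ U ↔ evP z omP u - c • u ∈ N := fun u => by
    simp [U, Module.End.natCast_apply]
  have st : ∀ j, St (z j) U := by
    intro j u hu
    rw [mem] at hu ⊢
    have := LinearMap.congr_fun (om_comm h j) u
    simp only [Module.End.mul_apply] at this
    rw [← this, ← map_nsmul, ← map_sub]
    exact hN j _ hu
  have hle : N ⊔ SS z w ≤ U := by
    refine sup_le ?_ (SS_le ((mem w).2 hw) ⟨st 6, st 7, st 8, st 9⟩)
    intro u hu
    rw [mem]
    exact sub_mem (hN.evP omP u hu) (nsmul_mem hu _)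
  exact fun u hu => (mem u).1 (hle hu)

def psi {A : Type*} [Ring A] (x : ℕ → A) : A := evP x omP * evP x omP + evP x omP

/-- `N` is a finite-dimensional submodule whose `psi`-invertible part has dimension `≤ d`. -/
structure Bd (z : ℕ → End k M) (N : Submodule k M) (d : ℕ) : Prop where
  stab : Stab z N
  fin : FiniteDimensional k N
  rank : ∃ n : ℕ, finrank k (N.map (psi z ^ n)) ≤ d

theorem Bd.step [CharP k 3] (h : Rel z) {N : Submodule k M} {d : ℕ} (hB : Bd z N d) {w : M}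
    {m1 m2 : ℕ} (e0 : z 0 w ∈ N) (e1 : z 1 w ∈ N) (h4 : z 4 w = m1 • w) (h5 : z 5 w = m2 • w) :
    Bd z (N ⊔ SS z w) (if gam m1 m2 % 3 = 1 then d + 81 else d) := by
  have hw : HWmod z N w m1 m2 := ⟨e0, e1, by simp [h4], by simp [h5]⟩
  have := hB.fin
  refine ⟨hw_stab h hB.stab hw, inferInstance, ?_⟩
  obtain ⟨n, hn⟩ := hB.rank
  split_ifs with hg
  · refine ⟨n, ?_⟩
    rw [Submodule.map_sup]
    have h1 := Submodule.finrank_add_le_finrank_add_finrank (N.map (psi z ^ n))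
      ((SS z w).map (psi z ^ n))
    have h2 := Submodule.finrank_map_le (psi z ^ n) (SS z w)
    have h3 := SS_rank z w
    omega
  · refine ⟨n + 1, le_trans (Submodule.finrank_mono ?_) hn⟩
    rintro _ ⟨u, hu, rfl⟩
    refine ⟨psi z u, ?_, by rw [pow_succ]; rfl⟩
    have h1 := om_SS h hB.stab (om_hw h hB.stab hw h4 h5) u hu
    set c := gam m1 m2
    have h2 : (c * (c + 1)) • u = 0 := by
      have : (c * (c + 1)) % 3 = 0 := by
        have : c % 3 = 0 ∨ c % 3 = 2 := by omega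
        rcases this with h | h <;> simp [Nat.mul_mod, Nat.add_mod, h]
      rw [← mod3 (three_smul k), this, zero_smul]
    have h3 : psi z u = evP z omP (evP z omP u - c • u) + (c + 1) • (evP z omP u - c • u)
        + (c * (c + 1)) • u := by
      simp only [psi, LinearMap.add_apply, Module.End.mul_apply, map_sub, map_nsmul]
      module
    change psi z u ∈ N
    rw [h3, h2, add_zero]
    exact add_mem (hB.stab.evP omP _ h1) (nsmul_mem h1 _)

theorem wt1 (h : Rel z) {u : M} {m1 m2 : ℕ} (h4 : z 4 u = m1 • u) (h5 : z 5 u = m2 • u) :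
    z 4 (z 1 u) = (m1 + 2) • z 1 u ∧ z 5 (z 1 u) = m2 • z 1 u := by
  constructor
  · simp [h.app 4 1, br, brT, h4, add_smul]
  · simp [h.app 5 1, br, brT, h5]

theorem wt2 (h : Rel z) {u : M} {m1 m2 : ℕ} (h4 : z 4 u = m1 • u) (h5 : z 5 u = m2 • u) :
    z 4 (z 2 u) = (m1 + 1) • z 2 u ∧ z 5 (z 2 u) = (m2 + 1) • z 2 u := by
  constructor
  · simp [h.app 4 2, br, brT, h4, add_smul]
  · simp [h.app 5 2, br, brT, h5, add_smul]

def bump (m1 m2 d : ℕ) : ℕ := if gam m1 m2 % 3 = 1 then d + 81 else d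

theorem Bd.row [CharP k 3] (h : Rel z) {N : Submodule k M} {d : ℕ} (hB : Bd z N d) {u : M}
    {m1 m2 : ℕ} (e0 : z 0 u = 0) (e3 : z 3 u = 0) (h4 : z 4 u = m1 • u) (h5 : z 5 u = m2 • u)
    (h2 : z 2 u ∈ N) :
    ∃ N', Bd z N' (bump m1 m2 (bump (m1 + 2) m2 (bump (m1 + 2 + 2) m2 d))) ∧ u ∈ N' := by
  obtain ⟨a4, a5⟩ := wt1 h h4 h5
  obtain ⟨b4, b5⟩ := wt1 h a4 a5
  have e01 : z 0 (z 1 u) = z 2 u := by simp [h.app 0 1, br, brT, e0]
  have e011 : z 0 (z 1 (z 1 u)) = z 1 (z 2 u) + z 1 (z 2 u) := by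
    rw [h.app 0 1, e01]; simp [h.app 2 1, br, brT, e3]
  have B1 := hB.step h (w := z 1 (z 1 u))
    (by rw [e011]; exact add_mem (hB.stab 1 _ h2) (hB.stab 1 _ h2))
    (by rw [h.nil (by norm_num) (by norm_num)]; exact zero_mem _) b4 b5
  have B2 := B1.step h (w := z 1 u) (by rw [e01]; exact Submodule.mem_sup_left h2)
    (Submodule.mem_sup_right (mem_SS _ _)) a4 a5
  have B3 := B2.step h (w := u) (by rw [e0]; exact zero_mem _)
    (Submodule.mem_sup_right (mem_SS _ _)) h4 h5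
  exact ⟨_, B3, Submodule.mem_sup_right (mem_SS _ _)⟩

theorem chain [CharP k 3] (h : Rel z) {w : M} (e0 : z 0 w = 0) (e3 : z 3 w = 0)
    (h4 : z 4 w = 2 • w) (h5 : z 5 w = 2 • w) : ∃ N, Bd z N 162 ∧ w ∈ N := by
  have B0 : Bd z ⊥ 0 := ⟨fun i u hu => by simp_all, inferInstance, 0, by simp⟩
  have k2 : ∀ u, z 0 u = 0 → z 3 u = 0 → z 0 (z 2 u) = 0 ∧ z 3 (z 2 u) = 0 := by
    intro u a b
    simp [h.app 0 2, h.app 3 2, br, brT, a, b]
  obtain ⟨a0, a3⟩ := k2 w e0 e3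
  obtain ⟨b0, b3⟩ := k2 _ a0 a3
  obtain ⟨a4, a5⟩ := wt2 h h4 h5
  obtain ⟨b4, b5⟩ := wt2 h a4 a5
  obtain ⟨N1, B1, m1⟩ := B0.row h b0 b3 b4 b5
    (by rw [h.nil (by norm_num) (by norm_num)]; exact zero_mem _)
  obtain ⟨N2, B2, m2⟩ := B1.row h a0 a3 a4 a5 m1
  obtain ⟨N3, B3, m3⟩ := B2.row h e0 e3 h4 h5 m2
  exact ⟨N3, B3, m3⟩

end Pool.Agent.Lib.MP_b2f0a7_al
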