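import Pool.Agent.Lib.MP_b2f0a7_al.Chk0
import Pool.Agent.Lib.MP_b2f0a7_al.Chk1
import Pool.Agent.Lib.MP_b2f0a7_al.Chk2

namespace Pool.Agent.Lib.MP_b2f0a7_al

set_option maxHeartbeats 400000

theorem chk_all {m1 m2 : ℕ} (h1 : m1 < 3) (h2 : m2 < 3) :
    (∀ j < 10, chkJ m1 m2 j = true) ∧ chkR m1 m2 = true := by
  interval_cases m1 <;> interval_cases m2
  exacts [chk00, chk01, chk02, chk10, chk11, chk12, chk20, chk21, chk22]

variable (k : Type*) [Field k]

theorem three_smul [CharP k 3] {M : Type*} [AddCommGroup M] [Module k M] (a : M) : 3 • a = 0 := by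
  have : ((3 : ℕ) : k) = 0 := CharP.cast_eq_zero k 3
  rw [← Nat.cast_smul_eq_nsmul k, this, zero_smul]

theorem evL_apply {ι : Type} {M N : Type*} [AddCommGroup M] [Module k M] [AddCommGroup N]
    [Module k N] (z : ι → M →ₗ[k] N) (l : List (ℕ × ι)) (u : M) :
    evL z l u = evL (fun a => z a u) l := map_evL (LinearMap.evalAddMonoidHom u) z l

def bv (a : ℕ) : Fin 81 → k := fun j => if (j : ℕ) = a then 1 else 0

theorem bv_eq (a : Fin 81) : bv k a = Pi.basisFun k (Fin 81) a := by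
  funext j
  simp [bv, Pi.single_apply, Fin.ext_iff]

theorem bv_ge {a : ℕ} (h : ¬ a < 81) : bv k a = 0 := by
  funext j
  have : (j : ℕ) ≠ a := by have := j.2; omega
  simp [bv, this]

theorem bv_ne {a : ℕ} (h : a < 81) : bv k a ≠ 0 := by
  intro h0
  have := congrFun h0 ⟨a, h⟩
  simp [bv] at this

noncomputable def yy (m1 m2 i : ℕ) : Module.End k (Fin 81 → k) :=
  (Pi.basisFun k (Fin 81)).constr k (fun a => evL (bv k) (col m1 m2 i a))

theorem yy_bv (m1 m2 i a : ℕ) : yy k m1 m2 i (bv k a) = evL (bv k) (col m1 m2 i a) := by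
  by_cases h : a < 81
  · have := bv_eq k ⟨a, h⟩
    simp only at this
    rw [this, yy, Module.Basis.constr_basis]
  · rw [bv_ge k h, map_zero]; simp [col, h]

theorem yy_evL (m1 m2 i : ℕ) (l : List (ℕ × ℕ)) :
    yy k m1 m2 i (evL (bv k) l) = evL (bv k) (bind l (col m1 m2 i)) := by
  rw [map_evL, evL_bind]; simp only [yy_bv]

theorem ext_bv {W : Type*} [AddCommGroup W] [Module k W] {f g : (Fin 81 → k) →ₗ[k] W}
    (h : ∀ a < 81, f (bv k a) = g (bv k a)) : f = g := by
  refine (Pi.basisFun k (Fin 81)).ext fun a => ?_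
  rw [← bv_eq]; exact h a a.2

theorem top_bv {U : Submodule k (Fin 81 → k)} (h : ∀ a < 81, bv k a ∈ U) : U = ⊤ := by
  rw [eq_top_iff, ← (Pi.basisFun k (Fin 81)).span_eq, Submodule.span_le]
  rintro _ ⟨a, rfl⟩
  rw [← bv_eq]; exact h a a.2

variable [CharP k 3]

theorem evW_yy (m1 m2 : ℕ) (w : List ℕ) (v : List (ℕ × ℕ)) :
    evW (yy k m1 m2) w (evL (bv k) v) = evL (bv k) (appW m1 m2 w v) := by
  induction w with
  | nil => simp [appW]
  | cons i w ih =>
    unfold appW
    rw [evW_cons, Module.End.mul_apply, ih, yy_evL, evL_nrm (three_smul k)]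

theorem evW_yy_bv (m1 m2 : ℕ) (w : List ℕ) (a : ℕ) :
    evW (yy k m1 m2) w (bv k a) = evL (bv k) (appW m1 m2 w [(1, a)]) := by
  rw [← evW_yy]; simp

structure Good (m1 m2 : ℕ) (y : ℕ → Module.End k (Fin 81 → k)) : Prop where
  rel : Rel y
  ezero : evW y [1, 1, 0, 0, 2, 2, 3, 3] = 0
  gen : ∀ a < 81, evW y (mon a) (bv k 0) = bv k a
  hw : ∀ i < 4, y i (bv k 0) = 0
  w4 : y 4 (bv k 0) = m1 • bv k 0
  w5 : y 5 (bv k 0) = m2 • bv k 0

theorem good_yy {m1 m2 : ℕ} (h1 : m1 < 3) (h2 : m2 < 3) : Good k m1 m2 (yy k m1 m2) := by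
  have h := chk_all h1 h2
  simp only [chkJ, chkC, chkQ, chkR, Bool.and_eq_true, List.all_eq_true, List.mem_range] at h
  obtain ⟨hJ, ⟨⟨hE, hH⟩, h4⟩, h5⟩ := h
  have hC := fun j hj => (hJ j hj).1
  have hQ := fun j hj => (hJ j hj).2
  refine ⟨Rel.of_lt (three_smul k) ?_ ?_ ?_, ?_, ?_, ?_, ?_, ?_⟩
  · intro i hi
    refine ext_bv k fun a _ => ?_
    have : ¬ i < 10 := by omega
    rw [yy_bv]; simp [col, this]
  · intro j hj i hi
    refine ext_bv k fun a ha => ?_
    have := evL_same (three_smul k) (bv k) (hC j hj i hi a ha)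
    rw [evL_append, evL_bind _ (br i j), ← yy_evL, ← yy_evL, ← yy_bv, ← yy_bv] at this
    rw [LinearMap.add_apply, Module.End.mul_apply, Module.End.mul_apply, this, evL_apply]
    simp only [yy_bv]
  · intro i hi
    refine ext_bv k fun a ha => ?_
    have := evL_same (three_smul k) (bv k) (hQ i hi a ha)
    rw [← evW_yy_bv, evL_bind] at this
    rw [evL_apply]
    simp only [yy_bv]
    rw [← this]
    simp
  · refine ext_bv k fun a ha => ?_
    have := evL_same (three_smul k) (bv k) (hE a ha).1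
    rw [evW_yy_bv, this]; simp
  · intro a ha
    have := evL_same (three_smul k) (bv k) (hE a ha).2
    rw [evW_yy_bv, this]; simp
  · intro i hi
    rw [yy_bv, evL_same (three_smul k) (bv k) (hH i hi)]; simp
  · rw [yy_bv, evL_same (three_smul k) (bv k) h4]; simp
  · rw [yy_bv, evL_same (three_smul k) (bv k) h5]; simp

def coA (i : ℕ) : ℕ := [3, 2, 2, 2, 7, 2, 0, 0, 0, 0].getD i 0
def coB (i : ℕ) : Fin 81 := [27, 4, 28, 1, 7, 2, 9, 27, 3, 1].getD i 0

def pick (b : ℕ) (a : ℕ) : List (ℕ × Unit) := if b = a then [(1, ())] else []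

theorem co_check : ∀ i < 10, ∀ j < 10,
    same (bind (col 0 0 j (coA i)) (pick (coB i))) (pick i j) = true := by decide +kernel

theorem co_yy {i : ℕ} (hi : i < 10) (j : ℕ) :
    yy k 0 0 j (bv k (coA i)) (coB i) = if i = j then 1 else 0 := by
  have hp : ∀ a b : ℕ, evL (fun _ => (1 : k)) (pick b a) = if b = a then 1 else 0 := by
    intro a b; unfold pick; split_ifs <;> simp
  by_cases hj : j < 10
  · have := evL_same (three_smul k) (fun _ => (1 : k)) (co_check i hi j hj)
    rw [evL_bind] at this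
    simp only [hp] at this
    rw [← this, yy_bv]
    exact map_evL (LinearMap.proj (R := k) (φ := fun _ : Fin 81 => k) (coB i)) _ _
  · have : i ≠ j := by omega
    rw [(good_yy k (by norm_num) (by norm_num)).rel.zero j (not_lt.1 hj)]; simp [this]

end Pool.Agent.Lib.MP_b2f0a7_al
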